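import Pool.Agent.Helper73.QC.Height

/-!
# Exponents without even height modulo a small prime

For `r = 11, 19, 23` and exponents `a : Fin 5 → ZMod r` with ten nonzero residues, some multiple of
`a` by a unit has even height, or the discriminant `disc a` is not zero.
-/

set_option autoImplicit false

namespace Pool.Agent.Helper40.QC

open Pool.Agent.Helper73.QC

/-- the discriminant `3 G - 4 S₃ ^ 2` of the exponents, `G = S₂ ^ 3 - 2 S₂ S₄ + 8 S₆ - 2 V`, where
`S_k` is the sum of the `k`-th powers of the ten residues and `V` the sum over the five points of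
the cubes of the sums of the squares of the four residues at the point -/
def disc {R : Type} [CommRing R] (a : Fin 5 → R) : R :=
  let q := residues a
  let S := fun k : ℕ => ∑ i, q i ^ k
  let A := fun i j k l : Fin 10 => q i ^ 2 + q j ^ 2 + q k ^ 2 + q l ^ 2
  let V := A 0 1 4 5 ^ 3 + A 2 3 4 6 ^ 3 + A 0 2 8 9 ^ 3 + A 1 3 7 9 ^ 3 + A 5 6 7 8 ^ 3
  3 * (S 2 ^ 3 - 2 * S 2 * S 4 + 8 * S 6 - 2 * V) - 4 * S 3 ^ 2

/-- the two sides of `disc ≠ 0` -/
def lhs (q0 q1 q2 q3 q4 q5 q6 q7 q8 q9 : ℕ) : ℕ :=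
  3 * (q0 ^ 2 + q1 ^ 2 + q2 ^ 2 + q3 ^ 2 + q4 ^ 2 + q5 ^ 2 + q6 ^ 2 + q7 ^ 2 + q8 ^ 2 + q9 ^ 2) ^ 3 +
    24 * (q0 ^ 6 + q1 ^ 6 + q2 ^ 6 + q3 ^ 6 + q4 ^ 6 + q5 ^ 6 + q6 ^ 6 + q7 ^ 6 + q8 ^ 6 + q9 ^ 6)

def rhs (q0 q1 q2 q3 q4 q5 q6 q7 q8 q9 : ℕ) : ℕ :=
  4 * (q0 ^ 3 + q1 ^ 3 + q2 ^ 3 + q3 ^ 3 + q4 ^ 3 + q5 ^ 3 + q6 ^ 3 + q7 ^ 3 + q8 ^ 3 + q9 ^ 3) ^ 2 +
    6 * (q0 ^ 2 + q1 ^ 2 + q2 ^ 2 + q3 ^ 2 + q4 ^ 2 + q5 ^ 2 + q6 ^ 2 + q7 ^ 2 + q8 ^ 2 + q9 ^ 2) *
      (q0 ^ 4 + q1 ^ 4 + q2 ^ 4 + q3 ^ 4 + q4 ^ 4 + q5 ^ 4 + q6 ^ 4 + q7 ^ 4 + q8 ^ 4 + q9 ^ 4) +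
    6 * ((q0 ^ 2 + q1 ^ 2 + q4 ^ 2 + q5 ^ 2) ^ 3 + (q2 ^ 2 + q3 ^ 2 + q4 ^ 2 + q6 ^ 2) ^ 3 +
      (q0 ^ 2 + q2 ^ 2 + q8 ^ 2 + q9 ^ 2) ^ 3 + (q1 ^ 2 + q3 ^ 2 + q7 ^ 2 + q9 ^ 2) ^ 3 +
      (q5 ^ 2 + q6 ^ 2 + q7 ^ 2 + q8 ^ 2) ^ 3)

/-- an even height among the multiples -/
def evenHeight (r q0 q1 q2 q3 q4 q5 q6 q7 q8 q9 : ℕ) : Bool :=
  (List.range (r - 1)).any fun x => ((((x + 1) * q0 % r + (x + 1) * q1 % r + (x + 1) * q2 % r +
    (x + 1) * q3 % r + (x + 1) * q4 % r + (x + 1) * q5 % r + (x + 1) * q6 % r +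
    (x + 1) * q7 % r + (x + 1) * q8 % r + (x + 1) * q9 % r) / r) % 2 == 0)

def good (r q0 q1 q2 q3 q4 q5 q6 q7 q8 q9 : ℕ) : Bool :=
  (q1 == 0) || (q2 == 0) || (q3 == 0) || (q4 == 0) || (q5 == 0) || (q6 == 0) || (q7 == 0) ||
    (q8 == 0) || (q9 == 0) || evenHeight r q0 q1 q2 q3 q4 q5 q6 q7 q8 q9 ||
      (lhs q0 q1 q2 q3 q4 q5 q6 q7 q8 q9 % r != rhs q0 q1 q2 q3 q4 q5 q6 q7 q8 q9 % r)

def check (r : ℕ) : Bool :=
  (List.range r).all fun a => (List.range r).all fun b => (List.range r).all fun c =>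
    (List.range r).all fun d =>
      good r 1 a b c d ((2 * r - 1 + (r - a) + (r - d)) % r) ((r - b + (r - c) + (r - d)) % r)
        ((1 + b + d) % r) ((a + c + d) % r) ((r - 1 + (r - a) + (r - b) + (r - c) + (r - d)) % r)

theorem disc_mul {R : Type} [CommRing R] (x : R) (a : Fin 5 → R) :
    disc (fun i => x * a i) = x ^ 6 * disc a := by
  simp only [disc, residues_mul, Fin.sum_univ_succ, Fin.sum_univ_zero]
  ring

section

variable {r : ℕ} [hr : Fact r.Prime]

theorem good_imp (b : Fin 5 → ZMod r) (hb : ∀ i, residues b i ≠ 0)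
    (h : good r (residues b 0).val (residues b 1).val (residues b 2).val (residues b 3).val
      (residues b 4).val (residues b 5).val (residues b 6).val (residues b 7).val
      (residues b 8).val (residues b 9).val = true) :
    (∃ h : (ZMod r)ˣ, Even (height fun i => (h : ZMod r) * b i)) ∨ disc b ≠ 0 := by
  have hv : ∀ i, (residues b i).val ≠ 0 := fun i h0 => hb i ((ZMod.val_eq_zero _).1 h0)
  simp only [good, Bool.or_eq_true, beq_iff_eq, hv, false_or, bne_iff_ne, ne_eq] at h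
  rcases h with h | h
  · left
    rw [evenHeight, List.any_eq_true] at h
    obtain ⟨x, hx, hx'⟩ := h
    rw [List.mem_range] at hx
    rw [beq_iff_eq] at hx'
    have hx1 : ((x + 1 : ℕ) : ZMod r) ≠ 0 := by
      rw [Ne, ZMod.natCast_eq_zero_iff]
      intro hd
      have := Nat.le_of_dvd (Nat.succ_pos x) hd
      omega
    refine ⟨Units.mk0 _ hx1, ?_⟩
    have hval : ∀ i, (residues (fun j => ((x + 1 : ℕ) : ZMod r) * b j) i).val =
        (x + 1) * (residues b i).val % r := by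
      intro i
      rw [residues_mul, ZMod.val_mul, ZMod.val_natCast, Nat.mod_mul_mod]
    rw [Nat.even_iff]
    have e : height (fun i => ((Units.mk0 _ hx1 : (ZMod r)ˣ) : ZMod r) * b i) =
        (∑ i, (x + 1) * (residues b i).val % r) / r := by
      rw [height]
      congr 1
      exact Finset.sum_congr rfl fun i _ => hval i
    rw [e, ← hx']
    congr 2
    simp only [Fin.sum_univ_succ, Fin.sum_univ_zero]
    simp
    ring
  · right
    intro h0
    apply h
    have hc : ∀ i, (((residues b i).val : ℕ) : ZMod r) = residues b i := fun i =>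
      ZMod.natCast_zmod_val _
    rw [← Nat.ModEq, ← ZMod.natCast_eq_natCast_iff]
    rw [lhs, rhs]
    push_cast
    simp only [hc]
    rw [disc] at h0
    simp only [Fin.sum_univ_succ, Fin.sum_univ_zero] at h0
    simp only [Fin.succ_zero_eq_one, Fin.succ_one_eq_two] at h0
    have h1 : ∀ x y : ZMod r, x - y = 0 → x = y := fun x y h => sub_eq_zero.1 h
    apply h1
    rw [← h0]
    simp
    ring

theorem of_check (hc : check r = true) (a : Fin 5 → ZMod r) (ha : ∀ i, residues a i ≠ 0) :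
    (∃ h : (ZMod r)ˣ, Even (height fun i => (h : ZMod r) * a i)) ∨ disc a ≠ 0 := by
  have h0 : a 0 ≠ 0 := ha 0
  have hr1 := hr.out.one_lt
  set b : Fin 5 → ZMod r := fun i => (a 0)⁻¹ * a i with hb
  have hb0 : b 0 = 1 := inv_mul_cancel₀ h0
  have hres : ∀ i, residues b i ≠ 0 := by
    intro i
    rw [hb, residues_mul]
    exact mul_ne_zero (inv_ne_zero h0) (ha i)
  have hgood : good r (residues b 0).val (residues b 1).val (residues b 2).val (residues b 3).val
      (residues b 4).val (residues b 5).val (residues b 6).val (residues b 7).val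
      (residues b 8).val (residues b 9).val = true := by
    rw [check] at hc
    have h1 := List.all_eq_true.1 hc _ (List.mem_range.2 (ZMod.val_lt (b 1)))
    have h2 := List.all_eq_true.1 h1 _ (List.mem_range.2 (ZMod.val_lt (b 2)))
    have h3 := List.all_eq_true.1 h2 _ (List.mem_range.2 (ZMod.val_lt (b 3)))
    have h4 := List.all_eq_true.1 h3 _ (List.mem_range.2 (ZMod.val_lt (b 4)))
    have l1 := (ZMod.val_lt (b 1)).le
    have l2 := (ZMod.val_lt (b 2)).le
    have l3 := (ZMod.val_lt (b 3)).le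
    have l4 := (ZMod.val_lt (b 4)).le
    have hcast : ∀ i, (((b i).val : ℕ) : ZMod r) = b i := fun i => ZMod.natCast_zmod_val _
    have q0 : (residues b 0).val = 1 := by
      change (b 0).val = 1
      rw [hb0]
      exact ZMod.val_one'' (by omega)
    have q1 : (residues b 1).val = (b 1).val := rfl
    have q2 : (residues b 2).val = (b 2).val := rfl
    have q3 : (residues b 3).val = (b 3).val := rfl
    have q4 : (residues b 4).val = (b 4).val := rfl
    have q5 : (residues b 5).val = (2 * r - 1 + (r - (b 1).val) + (r - (b 4).val)) % r := by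
      rw [← ZMod.val_natCast]
      congr 1
      rw [Nat.cast_add, Nat.cast_add, Nat.cast_sub (by omega), Nat.cast_sub l1, Nat.cast_sub l4,
        hcast, hcast]
      change -(b 0 + b 1 + b 4) = _
      push_cast
      rw [hb0, ZMod.natCast_self]
      ring
    have q6 : (residues b 6).val =
        (r - (b 2).val + (r - (b 3).val) + (r - (b 4).val)) % r := by
      rw [← ZMod.val_natCast]
      congr 1
      rw [Nat.cast_add, Nat.cast_add, Nat.cast_sub l2, Nat.cast_sub l3, Nat.cast_sub l4,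
        hcast, hcast, hcast]
      change -(b 2 + b 3 + b 4) = _
      rw [ZMod.natCast_self]
      ring
    have q7 : (residues b 7).val = (1 + (b 2).val + (b 4).val) % r := by
      rw [← ZMod.val_natCast]
      congr 1
      push_cast
      rw [hcast, hcast]
      change b 0 + b 2 + b 4 = _
      rw [hb0]
    have q8 : (residues b 8).val = ((b 1).val + (b 3).val + (b 4).val) % r := by
      rw [← ZMod.val_natCast]
      congr 1
      push_cast
      rw [hcast, hcast, hcast]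
      rfl
    have q9 : (residues b 9).val = (r - 1 + (r - (b 1).val) + (r - (b 2).val) +
        (r - (b 3).val) + (r - (b 4).val)) % r := by
      rw [← ZMod.val_natCast]
      congr 1
      rw [Nat.cast_add, Nat.cast_add, Nat.cast_add, Nat.cast_add, Nat.cast_sub hr1.le,
        Nat.cast_sub l1, Nat.cast_sub l2, Nat.cast_sub l3, Nat.cast_sub l4, hcast, hcast, hcast,
        hcast]
      change -(b 0 + b 1 + b 2 + b 3 + b 4) = _
      push_cast
      rw [hb0, ZMod.natCast_self]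
      ring
    rw [q0, q1, q2, q3, q4, q5, q6, q7, q8, q9]
    exact h4
  rcases good_imp b hres hgood with ⟨h, hh⟩ | hd
  · left
    refine ⟨h * Units.mk0 _ (inv_ne_zero h0), ?_⟩
    convert hh using 3
    rw [hb]
    push_cast
    simp only [Units.val_mk0]
    ring
  · right
    intro h1
    apply hd
    rw [hb, disc_mul, h1, mul_zero]

end

theorem check_eleven : check 11 = true := by decide +kernel

/-- exponents modulo eleven -/
theorem eleven (a : Fin 5 → ZMod 11) (ha : ∀ i, residues a i ≠ 0) :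
    (∃ h : (ZMod 11)ˣ, Even (height fun i => (h : ZMod 11) * a i)) ∨ disc a ≠ 0 :=
  have : Fact (Nat.Prime 11) := ⟨by norm_num⟩
  of_check check_eleven a ha

end Pool.Agent.Helper40.QC
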