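import Mathlib

/-!
# A form of the lemma of Gauss for cosets of a subgroup of odd order (helper40)
-/

set_option autoImplicit false

namespace Pool.Agent.Helper40.QC

open Finset

section cyclic

variable {G : Type*} [CommGroup G] [Fintype G] [DecidableEq G]

/-- The element of order two of a cyclic group. -/
theorem pow_half {g w : G} (hg : ∀ x : G, x ∈ Subgroup.zpowers g) (hw : w ≠ 1) (hw2 : w * w = 1)
    {M : ℕ} (hM : Fintype.card G = 2 * M) : g ^ M = w := by
  have hord : orderOf g = 2 * M := by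
    rw [← hM, ← Nat.card_eq_fintype_card]
    exact orderOf_eq_card_of_forall_mem_zpowers hg
  obtain ⟨s, hs⟩ : ∃ s : ℕ, g ^ s = w := by
    have h1 := hg w
    rw [mem_zpowers_iff_mem_range_orderOf, Finset.mem_image] at h1
    obtain ⟨s, -, hs⟩ := h1
    exact ⟨s, hs⟩
  have h2 : g ^ (2 * s) = 1 := by rw [mul_comm, pow_mul, hs, pow_two, hw2]
  have h3 : 2 * M ∣ 2 * s := by rw [← hord]; exact orderOf_dvd_of_pow_eq_one h2
  obtain ⟨t, rfl⟩ : M ∣ s := Nat.dvd_of_mul_dvd_mul_left two_pos h3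
  have h4 : (g ^ M) ^ 2 = 1 := by rw [← pow_mul, mul_comm, ← hord, pow_orderOf_eq_one]
  rcases Nat.even_or_odd' t with ⟨c, rfl | rfl⟩
  · exfalso
    apply hw
    rw [← hs, pow_mul, pow_mul (g ^ M), h4, one_pow]
  · rw [← hs, pow_mul g, pow_succ, pow_mul (g ^ M), h4, one_pow, one_mul]

/-- A subgroup of order `m` of a cyclic group contains all `x` with `x ^ m = 1`. -/
theorem mem_of_pow {g : G} (hg : ∀ x : G, x ∈ Subgroup.zpowers g) (H : Subgroup G)
    {x : G} (hx : x ^ Nat.card H = 1) : x ∈ H := by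
  classical
  haveI : IsCyclic G := ⟨⟨g, hg⟩⟩
  have h1 : (univ.filter fun y : G => y ^ Nat.card H = 1).card ≤ Nat.card H :=
    IsCyclic.card_pow_eq_one_le Nat.card_pos
  have h2 : (univ.filter fun y : G => y ∈ H) ⊆ univ.filter fun y : G => y ^ Nat.card H = 1 := by
    intro y hy
    rw [mem_filter] at hy ⊢
    refine ⟨mem_univ _, ?_⟩
    have h3 : (⟨y, hy.2⟩ : H) ^ Nat.card H = 1 := pow_card_eq_one'
    have h4 := congrArg (Subtype.val : H → G) h3
    simpa only [Subgroup.coe_pow, Subgroup.coe_one] using h4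
  have h5 : (univ.filter fun y : G => y ∈ H).card = Nat.card H := by
    rw [Nat.card_eq_fintype_card, Fintype.card_subtype]
  have h6 := Finset.eq_of_subset_of_card_le h2 (by rw [h5]; exact h1)
  have h7 : x ∈ univ.filter fun y : G => y ^ Nat.card H = 1 := mem_filter.2 ⟨mem_univ _, hx⟩
  rw [← h6] at h7
  exact (mem_filter.1 h7).2

theorem shift_sum (E : ℕ → ZMod 2) (M : ℕ) (hE : ∀ i, E (i + M) = E i + 1) (s : ℕ) :
    ∑ i ∈ range M, E (i + s) = ∑ i ∈ range M, E i + s := by
  induction s with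
  | zero => simp
  | succ s ih =>
    have h1 : ∑ i ∈ range M, E (i + (s + 1)) + E s = ∑ i ∈ range (M + 1), E (i + s) := by
      rw [Finset.sum_range_succ' (fun i => E (i + s)) M]
      congr 1
      · exact Finset.sum_congr rfl fun i _ => by congr 1; ring
      · rw [zero_add]
    rw [Finset.sum_range_succ, ih, add_comm M s, hE] at h1
    have h2 : ∑ i ∈ range M, E (i + (s + 1)) = ∑ i ∈ range M, E i + s + 1 := by
      have h3 := congrArg (fun z => z - E s) h1
      simp only [add_sub_cancel_right] at h3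
      rw [h3]; ring
    rw [h2]; push_cast; ring

theorem gauss_cyclic {g w : G} (hg : ∀ x : G, x ∈ Subgroup.zpowers g) (hw : w ≠ 1)
    (hw2 : w * w = 1) (e : G → ZMod 2) (he : ∀ y, e (w * y) = e y + 1) {ι : Type*} [Fintype ι]
    (hι : Even (Fintype.card ι)) (a : ι → G) (H : Subgroup G) (hH : Odd (Nat.card H))
    (Hs : Finset G) (hHs : ∀ x, x ∈ Hs ↔ x ∈ H)
    (hf : ∀ h : G, ∑ u ∈ Hs, ∑ D, e (u * h * a D) = 1) :
    IsSquare (w * ∏ D, a D) := by
  classical
  have hGe : Even (Fintype.card G) := by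
    have h1 : orderOf w = 2 := by
      apply orderOf_eq_prime
      · rw [pow_two, hw2]
      · exact hw
    rw [even_iff_two_dvd, ← h1]
    exact orderOf_dvd_card
  obtain ⟨M, hM⟩ := hGe
  rw [← two_mul] at hM
  have hgM := pow_half hg hw hw2 hM
  set m := Nat.card H with hm
  obtain ⟨M', hM'⟩ : m ∣ M := by
    have h1 : m ∣ 2 * M := by rw [← hM, ← Nat.card_eq_fintype_card]; exact Subgroup.card_subgroup_dvd_card H
    exact (Nat.Coprime.dvd_mul_left (Nat.Coprime.symm (Nat.coprime_two_left.2 hH))).1 h1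
  have hwm : ∀ j, Odd j → w ^ j = w := by
    rintro j ⟨c, rfl⟩
    rw [pow_succ, pow_mul, pow_two, hw2, one_pow, one_mul]
  have hmem : w * g ^ M' ∈ H := by
    apply mem_of_pow hg
    rw [← hm, mul_pow, hwm m hH, ← pow_mul, mul_comm M' m, ← hM', hgM, hw2]
  -- the sums over `H`
  let E : G → ZMod 2 := fun y => ∑ u ∈ Hs, e (u * y)
  have hEH : ∀ v ∈ H, ∀ y, E (v * y) = E y := by
    intro v hv y
    refine Finset.sum_nbij' (fun u => u * v) (fun u => u * v⁻¹) ?_ ?_ ?_ ?_ ?_
    · intro u hu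
      rw [hHs] at hu ⊢
      exact H.mul_mem hu hv
    · intro u hu
      rw [hHs] at hu ⊢
      exact H.mul_mem hu (H.inv_mem hv)
    · intro u _; exact mul_inv_cancel_right u v
    · intro u _; exact inv_mul_cancel_right u v
    · intro u _; rw [mul_assoc]
  have hcard : Hs.card = m := by
    rw [hm, Nat.card_eq_fintype_card, Fintype.card_subtype]
    congr 1
    ext x
    rw [hHs, mem_filter]
    exact ⟨fun h => ⟨mem_univ _, h⟩, fun h => h.2⟩
  have hm1 : (m : ZMod 2) = 1 := by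
    obtain ⟨c, hc⟩ := hH
    rw [hc]; push_cast
    rw [show (2 : ZMod 2) = 0 from rfl]; ring
  have hEw : ∀ y, E (w * y) = E y + 1 := by
    intro y
    change ∑ u ∈ Hs, e (u * (w * y)) = _
    rw [Finset.sum_congr rfl fun u _ => by rw [mul_left_comm, he (u * y)], Finset.sum_add_distrib,
      Finset.sum_const, hcard, nsmul_eq_mul, mul_one, hm1]
  have hEM : ∀ y, E (g ^ M' * y) = E y + 1 := by
    intro y
    have h1 : g ^ M' * y = w * (w * g ^ M' * y) := by
      rw [← mul_assoc, ← mul_assoc, hw2, one_mul]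
    rw [h1, hEw, hEH _ hmem]
  -- the exponents
  have hs : ∀ D, ∃ s : ℕ, g ^ s = a D := by
    intro D
    have h1 := hg (a D)
    rw [mem_zpowers_iff_mem_range_orderOf, Finset.mem_image] at h1
    obtain ⟨s, -, hs⟩ := h1
    exact ⟨s, hs⟩
  choose s hs using hs
  have hsum1 : ∀ D, ∑ i ∈ range M', E (g ^ i * a D) = ∑ i ∈ range M', E (g ^ i) + s D := by
    intro D
    have h1 := shift_sum (fun i => E (g ^ i)) M' (fun i => by
      change E (g ^ (i + M')) = _
      rw [pow_add, mul_comm, hEM]) (s D)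
    simp only [pow_add, hs] at h1
    exact h1
  have hsum2 : ∀ h : G, ∑ D, E (h * a D) = 1 := by
    intro h
    rw [← hf h, Finset.sum_comm]
    exact Finset.sum_congr rfl fun u _ => Finset.sum_congr rfl fun D _ => by rw [mul_assoc]
  have hι2 : (Fintype.card ι : ZMod 2) = 0 := by
    obtain ⟨c, hc⟩ := hι
    rw [hc]; push_cast
    rw [← two_mul, show (2 : ZMod 2) = 0 from rfl, zero_mul]
  have htot : ((∑ D, s D : ℕ) : ZMod 2) = M' := by
    have h1 : ∑ D, ∑ i ∈ range M', E (g ^ i * a D) = (M' : ZMod 2) := by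
      rw [Finset.sum_comm, Finset.sum_congr rfl fun i _ => hsum2 (g ^ i), Finset.sum_const,
        card_range, nsmul_eq_mul, mul_one]
    rw [Finset.sum_congr rfl fun D _ => hsum1 D, Finset.sum_add_distrib, Finset.sum_const,
      Finset.card_univ, nsmul_eq_mul, hι2, zero_mul, zero_add] at h1
    rw [Nat.cast_sum]; exact h1
  have hpar : Even (M + ∑ D, s D) := by
    rw [← ZMod.natCast_eq_zero_iff_even]
    rw [Nat.cast_add, htot, hM', Nat.cast_mul, hm1, one_mul, ← two_mul,
      show (2 : ZMod 2) = 0 from rfl, zero_mul]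
  obtain ⟨t, ht⟩ := hpar
  refine ⟨g ^ t, ?_⟩
  rw [← pow_add, ← ht, pow_add, hgM, ← Finset.prod_pow_eq_pow_sum]
  congr 1
  exact Finset.prod_congr rfl fun D _ => (hs D).symm

end cyclic

section zmod

variable {r k : ℕ} [Fact r.Prime]

theorem val_neg_parity {n : ℕ} [NeZero n] (hn : Odd n) {x : ZMod n} (hx : x ≠ 0) :
    (((-x).val : ℕ) : ZMod 2) = (x.val : ZMod 2) + 1 := by
  have h1 : (-x).val + x.val = n := by
    haveI : NeZero x := ⟨hx⟩
    rw [ZMod.val_neg_of_ne_zero]
    exact Nat.sub_add_cancel x.val_lt.le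
  have h2 := congrArg (Nat.cast (R := ZMod 2)) h1
  have h3 : (n : ZMod 2) = 1 := by
    obtain ⟨c, hc⟩ := hn
    rw [hc]; push_cast
    rw [show (2 : ZMod 2) = 0 from rfl]; ring
  rw [Nat.cast_add, h3] at h2
  have h4 : (x.val : ZMod 2) + x.val = 0 := by
    rw [← two_mul, show (2 : ZMod 2) = 0 from rfl, zero_mul]
  linear_combination h2 - h4

theorem dvd_sum_val {n : ℕ} [NeZero n] {ι : Type*} [Fintype ι] (x : ι → ZMod n)
    (hx : ∑ D, x D = 0) : n ∣ ∑ D, (x D).val := by
  rw [← ZMod.natCast_eq_zero_iff, Nat.cast_sum, ← hx]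
  exact Finset.sum_congr rfl fun D _ => ZMod.natCast_zmod_val _

/-- The lemma of Gauss for the cosets of a subgroup of odd order. -/
theorem exists_even (hr : r ≠ 2) (hk : 0 < k) {ι : Type*} [Fintype ι]
    (hc : Even (Fintype.card ι)) (a : ι → ℤ) (ha : ∀ D, ¬ (r : ℤ) ∣ a D) (hsum : ∑ D, a D = 0)
    (hns : ¬ IsSquare ((-(∏ D, a D) : ℤ) : ZMod r)) (H : Subgroup (ZMod (r ^ k))ˣ)
    [Fintype H] (hH : Odd (Nat.card H)) :
    ∃ h : (ZMod (r ^ k))ˣ, Even (∑ u : H, (∑ D,
      ((((u : (ZMod (r ^ k))ˣ) * h : (ZMod (r ^ k))ˣ) : ZMod (r ^ k)) *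
        (a D : ZMod (r ^ k))).val) / r ^ k) := by
  classical
  have hrp : r.Prime := Fact.out
  haveI : NeZero (r ^ k) := ⟨pow_ne_zero k hrp.ne_zero⟩
  have hodd : Odd r := hrp.odd_of_ne_two hr
  have hnodd : Odd (r ^ k) := hodd.pow
  have hn1 : 2 < r ^ k := by
    have h1 : r ≤ r ^ k := Nat.le_self_pow hk.ne' r
    have h2 := hrp.two_le
    obtain ⟨c, hc⟩ := hodd
    omega
  haveI : Fact (1 < r ^ k) := ⟨by omega⟩
  -- the residues are units
  have hcop : ∀ D, IsUnit ((a D : ℤ) : ZMod (r ^ k)) := by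
    intro D
    have h1 : IsCoprime (a D) ((r ^ k : ℕ) : ℤ) := by
      rw [Nat.cast_pow]
      apply IsCoprime.pow_right
      exact ((Int.prime_iff_natAbs_prime.2 (by simpa using hrp)).coprime_iff_not_dvd.2 (ha D)).symm
    rw [ZMod.coe_int_isUnit_iff_isCoprime]
    exact h1.symm
  choose b hb using hcop
  by_contra hcon
  push Not at hcon
  apply hns
  -- the cyclic group
  haveI := ZMod.isCyclic_units_of_prime_pow r hrp hr k
  obtain ⟨g, hg⟩ := IsCyclic.exists_generator (α := (ZMod (r ^ k))ˣ)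
  have hw : (-1 : (ZMod (r ^ k))ˣ) ≠ 1 := by
    intro h
    have h1 := congrArg (Units.val) h
    rw [Units.val_neg, Units.val_one] at h1
    have h2 : ((2 : ℕ) : ZMod (r ^ k)) = 0 := by
      push_cast
      linear_combination (-1 : ZMod (r ^ k)) * h1
    rw [ZMod.natCast_eq_zero_iff] at h2
    have := Nat.le_of_dvd two_pos h2
    omega
  have key := gauss_cyclic hg hw (by rw [neg_mul_neg, one_mul])
    (fun y : (ZMod (r ^ k))ˣ => ((y : ZMod (r ^ k)).val : ZMod 2)) (by
      intro y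
      have h1 : ((-1 * y : (ZMod (r ^ k))ˣ) : ZMod (r ^ k)) = -(y : ZMod (r ^ k)) := by
        rw [neg_one_mul, Units.val_neg]
      change ((((-1 * y : (ZMod (r ^ k))ˣ) : ZMod (r ^ k)).val : ℕ) : ZMod 2) = _
      rw [h1]
      exact val_neg_parity hnodd y.ne_zero) hc b H hH
    (univ.filter fun x => x ∈ H) (fun x => by simp) (by
      intro h
      have h1 := hcon h
      rw [Nat.not_even_iff_odd] at h1
      have h2 : ∀ u : (ZMod (r ^ k))ˣ,
          (∑ D, (((u * h : (ZMod (r ^ k))ˣ) : ZMod (r ^ k)) * (a D : ZMod (r ^ k))).val) =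
          r ^ k * ((∑ D, (((u * h : (ZMod (r ^ k))ˣ) : ZMod (r ^ k)) *
            (a D : ZMod (r ^ k))).val) / r ^ k) := by
        intro u
        refine (Nat.mul_div_cancel' (dvd_sum_val _ ?_)).symm
        rw [← Finset.mul_sum, ← Int.cast_sum, hsum, Int.cast_zero, mul_zero]
      have hn2 : ((r ^ k : ℕ) : ZMod 2) = 1 := by
        obtain ⟨c, hc⟩ := hnodd
        rw [hc]; push_cast
        rw [show (2 : ZMod 2) = 0 from rfl]; ring
      have h3 : ∀ u : (ZMod (r ^ k))ˣ, ∑ D, (((u * h * b D : (ZMod (r ^ k))ˣ) :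
          ZMod (r ^ k)).val : ZMod 2) = (((∑ D, (((u * h : (ZMod (r ^ k))ˣ) : ZMod (r ^ k)) *
            (a D : ZMod (r ^ k))).val) / r ^ k : ℕ) : ZMod 2) := by
        intro u
        have h4 := congrArg (Nat.cast (R := ZMod 2)) (h2 u)
        rw [Nat.cast_mul, hn2, one_mul, Nat.cast_sum] at h4
        rw [← h4]
        refine Finset.sum_congr rfl fun D _ => ?_
        rw [Units.val_mul, hb]
      rw [Finset.sum_congr rfl fun u _ => h3 u, ← Nat.cast_sum]
      have h5 : ∑ u ∈ univ.filter (fun x => x ∈ H), (∑ D, (((u * h : (ZMod (r ^ k))ˣ) :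
          ZMod (r ^ k)) * (a D : ZMod (r ^ k))).val) / r ^ k =
          ∑ u : H, (∑ D, ((((u : (ZMod (r ^ k))ˣ) * h : (ZMod (r ^ k))ˣ) : ZMod (r ^ k)) *
        (a D : ZMod (r ^ k))).val) / r ^ k := by
        rw [← Finset.sum_subtype (univ.filter fun x => x ∈ H) (by simp)
          (fun u : (ZMod (r ^ k))ˣ => (∑ D, (((u * h : (ZMod (r ^ k))ˣ) :
          ZMod (r ^ k)) * (a D : ZMod (r ^ k))).val) / r ^ k)]
      rw [h5]
      obtain ⟨c, hc⟩ := h1
      rw [hc]; push_cast
      rw [show (2 : ZMod 2) = 0 from rfl]; ring)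
  -- reduction modulo `r`
  let red : ZMod (r ^ k) →+* ZMod r := ZMod.castHom (dvd_pow_self r hk.ne') (ZMod r)
  obtain ⟨t, ht⟩ := key
  refine ⟨red t, ?_⟩
  have h1 := congrArg (fun z : (ZMod (r ^ k))ˣ => red z) ht
  simp only [Units.val_mul, map_mul] at h1
  rw [← h1, Units.coe_prod, map_prod]
  rw [Units.val_neg, Units.val_one, map_neg, map_one, neg_one_mul, Int.cast_neg, Int.cast_prod]
  congr 1
  refine Finset.prod_congr rfl fun D _ => ?_
  rw [hb, map_intCast]

end zmod

end Pool.Agent.Helper40.QC
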