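import Pool.Agent.Helper40.QC.Sign
import Pool.Agent.Helper17.QC.ResTwo

/-!
# The sum of the quadratic character over the complement of the quadrilateral

The finite analogue of Selberg's integral in two variables (Evans, Anderson) and its value for the
quadratic character.
-/

open Finset

namespace Pool.Agent.Helper40.QC

open Pool.Agent.Helper73.LF Pool.Agent.Helper73.QC Pool.Agent.Helper73.KT

section

variable {K L : Type*} [Field K] [Fintype K] [DecidableEq K] [Field L]

/-- sums over squares -/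
theorem sum_sq (h2 : ringChar K ≠ 2) (G : K → L) :
    ∑ h, G (h ^ 2) = ∑ w, G w * (1 + eta K L w) := by
  have h1 : ∀ w : K, ∑ h ∈ univ.filter (fun h => h ^ 2 = w), G (h ^ 2) = G w * (1 + eta K L w) := by
    intro w
    have h3 : ∑ h ∈ univ.filter (fun h => h ^ 2 = w), G (h ^ 2) =
        ∑ h ∈ univ.filter (fun h : K => h ^ 2 = w), G w :=
      sum_congr rfl fun h hh => by rw [(mem_filter.1 hh).2]
    rw [h3, sum_const, nsmul_eq_mul, mul_comm]
    congr 1
    have h4 := quadraticChar_card_sqrts h2 w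
    have h5 : (univ.filter (fun h : K => h ^ 2 = w)) = {x : K | x ^ 2 = w}.toFinset := by
      ext x
      simp
    rw [h5, eta_apply]
    have h6 := congrArg (fun z : ℤ => (z : L)) h4
    simp only [Int.cast_natCast, Int.cast_add, Int.cast_one] at h6
    rw [h6, add_comm]
  rw [← sum_fiberwise (s := univ) (g := fun h : K => h ^ 2)]
  exact sum_congr rfl fun w _ => h1 w

omit [DecidableEq K] in
theorem sum_char_sub {C : MulChar K L} (hC : C ≠ 1) (δ : K) : ∑ w, C (w - δ) = 0 := by
  rw [← MulChar.sum_eq_zero_of_ne_one hC]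
  exact Fintype.sum_equiv (Equiv.subRight δ) _ _ fun x => rfl

/-- the sum of a character over a quadratic polynomial -/
theorem sum_quadratic (h2 : ringChar K ≠ 2) {C : MulChar K L} (hC : C ≠ 1)
    (hCη : eta K L * C ≠ 1) (δ : K) :
    ∑ h, C (h ^ 2 - δ) = C (-1) * jacobiSum (eta K L) C * (eta K L * C) δ := by
  rw [sum_sq h2 (fun w => C (w - δ))]
  have e : ∀ w : K, C (w - δ) * (1 + eta K L w) = C (w - δ) + eta K L w * C (w - δ) := by
    intro w
    ring
  rw [sum_congr rfl fun w _ => e w, sum_add_distrib, sum_char_sub hC, zero_add]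
  by_cases hδ : δ = 0
  · subst hδ
    rw [map_zero'', mul_zero, ← MulChar.sum_eq_zero_of_ne_one hCη]
    refine sum_congr rfl fun w _ => ?_
    rw [sub_zero, MulChar.mul_apply]
  · rw [← Equiv.sum_comp (Equiv.mulLeft₀ δ hδ), jacobiSum, mul_sum, sum_mul]
    refine sum_congr rfl fun t _ => ?_
    rw [Equiv.mulLeft₀_apply, MulChar.mul_apply]
    have e1 : δ * t - δ = δ * (t - 1) := by ring
    rw [e1, map_mul, map_mul, map_sub_arg' C t 1]
    ring

/-- the sum over all monic polynomials `T² - s T + m` -/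
noncomputable def sel (A B X : MulChar K L) : L := ∑ s, ∑ m, A m * B (1 - s + m) * X (s ^ 2 - 4 * m)

theorem two_ne (h2 : ringChar K ≠ 2) : (2 : K) ≠ 0 := Ring.two_ne_zero h2

theorem four_ne (h2 : ringChar K ≠ 2) : (4 : K) ≠ 0 := by
  have h := two_ne h2
  have e : (4 : K) = 2 * 2 := by norm_num
  rw [e]
  exact mul_ne_zero h h

theorem eta_four (h2 : ringChar K ≠ 2) : eta K L 4 = 1 := by
  have e : (4 : K) = 2 ^ 2 := by norm_num
  rw [eta_apply, e, quadraticChar_sq_one' (two_ne h2), Int.cast_one]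

/-- the three variable Jacobi sum -/
theorem jac_three {A B C : MulChar K L} (hAC : A * C ≠ 1) :
    ∑ v, ∑ u, A u * B v * C (1 - u - v) = jacobiSum A C * jacobiSum B (A * C) := by
  rw [jacobiSum, jacobiSum, mul_comm, sum_mul_sum]
  have h1 : ∀ v : K, ∑ u, A u * B v * C (1 - u - v) =
      ∑ x, A x * C (1 - x) * (B v * (A * C) (1 - v)) := by
    intro v
    by_cases hv : (1 : K) - v = 0
    · rw [hv, map_zero'']
      simp only [mul_zero, sum_const_zero]
      have h3 : ∀ u : K, A u * B v * C (1 - u - v) = B v * C (-1) * (A * C) u := by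
        intro u
        have e : (1 : K) - u - v = - u := by linear_combination hv
        rw [e, map_neg_arg' C u, MulChar.mul_apply]
        ring
      rw [sum_congr rfl fun u _ => h3 u, ← mul_sum, MulChar.sum_eq_zero_of_ne_one hAC, mul_zero]
    · rw [← Equiv.sum_comp (Equiv.mulLeft₀ (1 - v) hv)]
      refine sum_congr rfl fun x _ => ?_
      rw [Equiv.mulLeft₀_apply]
      have e : (1 : K) - (1 - v) * x - v = (1 - v) * (1 - x) := by ring
      rw [e, map_mul, map_mul, MulChar.mul_apply]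
      ring
  exact sum_congr rfl fun v _ => (h1 v).trans (sum_congr rfl fun x _ => mul_comm _ _)

/-- the finite Selberg integral in two variables -/
theorem selberg (h2 : ringChar K ≠ 2) {A B C : MulChar K L} (hA : A ≠ 1) (hB : B ≠ 1) (hC : C ≠ 1)
    (hCη : eta K L * C ≠ 1) (hAC : A * C ≠ 1) :
    jacobiSum (eta K L) C * sel A B (eta K L * C) =
      C 4 * (jacobiSum (A * C) (B * C) * (jacobiSum A C * jacobiSum B (A * C))) := by
  -- the double sum
  have h1 : ∑ s, ∑ m, A m * B (1 - s + m) * ∑ g, C (g ^ 2 - s * g + m) =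
      C (-1) * (C 4)⁻¹ * (jacobiSum (eta K L) C * sel A B (eta K L * C)) := by
    rw [sel, mul_sum, mul_sum]
    refine sum_congr rfl fun s _ => ?_
    rw [mul_sum, mul_sum]
    refine sum_congr rfl fun m _ => ?_
    have h3 : ∑ g, C (g ^ 2 - s * g + m) = ∑ h, C (h ^ 2 - (s ^ 2 - 4 * m) / 4) := by
      rw [← Equiv.sum_comp (Equiv.addRight (s / 2))]
      refine sum_congr rfl fun h _ => ?_
      rw [Equiv.coe_addRight]
      congr 1
      have h4 := two_ne h2
      have h5 := four_ne h2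
      field_simp
      ring
    have h6 : (eta K L * C) ((s ^ 2 - 4 * m) / 4) = (eta K L * C) (s ^ 2 - 4 * m) * (C 4)⁻¹ := by
      have h7 : (eta K L * C) ((s ^ 2 - 4 * m) / 4) * (eta K L * C) 4 =
          (eta K L * C) (s ^ 2 - 4 * m) := by
        rw [← map_mul, div_mul_cancel₀ _ (four_ne h2)]
      have h8 : (eta K L * C) 4 = C 4 := by
        rw [MulChar.mul_apply, eta_four h2, one_mul]
      have h9 : C 4 ≠ 0 := char_ne (four_ne h2)
      rw [← h7, h8, mul_assoc, mul_inv_cancel₀ h9, mul_one]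
    rw [h3, sum_quadratic h2 hC hCη, h6]
    ring
  have h10 : ∑ s, ∑ m, A m * B (1 - s + m) * ∑ g, C (g ^ 2 - s * g + m) =
      C (-1) * (jacobiSum (A * C) (B * C) * (jacobiSum A C * jacobiSum B (A * C))) := by
    have h11 : ∑ s, ∑ m, A m * B (1 - s + m) * ∑ g, C (g ^ 2 - s * g + m) =
        ∑ g, ∑ s, ∑ m, A m * B (1 - s + m) * C (g ^ 2 - s * g + m) := by
      simp only [mul_sum]
      rw [sum_congr rfl fun s _ => sum_comm, sum_comm]
    rw [h11, show jacobiSum (A * C) (B * C) = ∑ g, (A * C) g * (B * C) (1 - g) from rfl, sum_mul,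
      mul_sum]
    refine sum_congr rfl fun g _ => ?_
    by_cases h0 : g = 0
    · subst h0
      rw [map_zero'', zero_mul, zero_mul, mul_zero, sum_comm]
      refine sum_eq_zero fun m _ => ?_
      have h12 : ∀ s : K, A m * B (1 - s + m) * C (0 ^ 2 - s * 0 + m) =
          (A m * C m) * (B ((1 + m) - s)) := by
        intro s
        have e1 : (0 : K) ^ 2 - s * 0 + m = m := by ring
        have e2 : (1 : K) - s + m = (1 + m) - s := by ring
        rw [e1, e2]
        ring
      rw [sum_congr rfl fun s _ => h12 s, ← mul_sum]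
      have h13 : ∑ s, B ((1 + m) - s) = 0 := by
        rw [← MulChar.sum_eq_zero_of_ne_one hB]
        exact Fintype.sum_equiv (Equiv.subLeft (1 + m)) _ _ fun x => rfl
      rw [h13, mul_zero]
    by_cases h1' : g = 1
    · subst h1'
      rw [sub_self, map_zero'', mul_zero, zero_mul, mul_zero]
      have h12 : ∀ s : K, ∑ m, A m * B (1 - s + m) * C (1 ^ 2 - s * 1 + m) =
          ∑ w, A (w - (1 - s)) * (B w * C w) := by
        intro s
        rw [← Equiv.sum_comp (Equiv.subRight (1 - s))]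
        refine sum_congr rfl fun w _ => ?_
        rw [Equiv.subRight_apply]
        have e1 : (1 : K) - s + (w - (1 - s)) = w := by ring
        have e2 : (1 : K) ^ 2 - s * 1 + (w - (1 - s)) = w := by ring
        rw [e1, e2]
        ring
      rw [sum_congr rfl fun s _ => h12 s, sum_comm]
      refine sum_eq_zero fun w _ => ?_
      rw [← sum_mul]
      have h13 : ∑ s, A (w - (1 - s)) = 0 := by
        rw [← MulChar.sum_eq_zero_of_ne_one hA]
        refine Fintype.sum_equiv (Equiv.addRight (w - 1)) _ _ fun s => ?_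
        rw [Equiv.coe_addRight]
        congr 1
        ring
      rw [h13, zero_mul]
    -- interpolation
    have hg1 : (1 : K) - g ≠ 0 := sub_ne_zero.2 (Ne.symm h1')
    have h14 : ∑ s, ∑ m, A m * B (1 - s + m) * C (g ^ 2 - s * g + m) =
        ∑ v, ∑ u, A (g * u) * B ((1 - g) * v) * C (g * (g - 1) * (1 - u - v)) := by
      rw [sum_comm, ← Equiv.sum_comp (Equiv.mulLeft₀ g h0), sum_comm (s := univ) (t := univ)
        (f := fun v u => A (g * u) * B ((1 - g) * v) * C (g * (g - 1) * (1 - u - v)))]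
      refine sum_congr rfl fun u _ => ?_
      rw [← Equiv.sum_comp ((Equiv.mulLeft₀ (1 - g) hg1).trans (Equiv.subLeft (1 + g * u)))]
      refine sum_congr rfl fun v _ => ?_
      simp only [Equiv.trans_apply, Equiv.subLeft_apply, Equiv.mulLeft₀_apply]
      have e1 : 1 - (1 + g * u - (1 - g) * v) + g * u = (1 - g) * v := by ring
      have e2 : g ^ 2 - (1 + g * u - (1 - g) * v) * g + g * u = g * (g - 1) * (1 - u - v) := by
        ring
      rw [e1, e2]
    have h15 : ∀ v u : K, A (g * u) * B ((1 - g) * v) * C (g * (g - 1) * (1 - u - v)) =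
        C (-1) * ((A * C) g * (B * C) (1 - g)) * (A u * B v * C (1 - u - v)) := by
      intro v u
      have e : g * (g - 1) * (1 - u - v) = (-1) * (g * ((1 - g) * (1 - u - v))) := by ring
      rw [e, map_mul, map_mul, map_mul, map_mul, map_mul, MulChar.mul_apply, MulChar.mul_apply]
      ring
    rw [h14, sum_congr rfl fun v _ => sum_congr rfl fun u _ => h15 v u]
    have h16 : ∑ v, ∑ u, C (-1) * ((A * C) g * (B * C) (1 - g)) * (A u * B v * C (1 - u - v)) =
        C (-1) * ((A * C) g * (B * C) (1 - g)) * ∑ v, ∑ u, A u * B v * C (1 - u - v) := by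
      rw [mul_sum]
      exact sum_congr rfl fun v _ => by rw [mul_sum]
    rw [h16, jac_three hAC]
    ring
  rw [h1] at h10
  have h17 := neg_one_sq C
  have h18 : C 4 ≠ 0 := char_ne (four_ne h2)
  have h19 : C 4 * (C 4)⁻¹ = 1 := mul_inv_cancel₀ h18
  calc jacobiSum (eta K L) C * sel A B (eta K L * C)
      = (C (-1) * C (-1)) * (C 4 * (C 4)⁻¹) * (jacobiSum (eta K L) C * sel A B (eta K L * C)) := by
        rw [h17, h19]; ring
    _ = C (-1) * C 4 * (C (-1) * (C 4)⁻¹ * (jacobiSum (eta K L) C * sel A B (eta K L * C))) := by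
        ring
    _ = C (-1) * C 4 *
        (C (-1) * (jacobiSum (A * C) (B * C) * (jacobiSum A C * jacobiSum B (A * C)))) := by
        rw [h10]
    _ = (C (-1) * C (-1)) * (C 4 *
        (jacobiSum (A * C) (B * C) * (jacobiSum A C * jacobiSum B (A * C)))) := by ring
    _ = _ := by rw [h17, one_mul]

theorem jac_self (h2 : ringChar K ≠ 2) {χ : MulChar K L} (hχ : χ ≠ 1) (hηχ : eta K L * χ ≠ 1) :
    χ 4 * jacobiSum χ χ = jacobiSum (eta K L) χ := by
  have h4 := four_ne h2
  have h20 := two_ne h2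
  have h1 : ∑ h, χ (h ^ 2 - 1 / 4) = χ (-1) * jacobiSum χ χ := by
    rw [← Equiv.sum_comp (Equiv.subRight (1 / 2 : K)), jacobiSum, mul_sum]
    refine sum_congr rfl fun x _ => ?_
    rw [Equiv.subRight_apply]
    have e : (x - 1 / 2) ^ 2 - 1 / 4 = (-1) * (x * (1 - x)) := by
      field_simp
      ring
    rw [e, map_mul, map_mul]
  have h3 := sum_quadratic h2 hχ hηχ (1 / 4)
  rw [h1] at h3
  have h5 : (eta K L * χ) (1 / 4) * χ 4 = 1 := by
    have h6 : (eta K L * χ) 4 = χ 4 := by rw [MulChar.mul_apply, eta_four h2, one_mul]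
    rw [← h6, ← map_mul, one_div, inv_mul_cancel₀ h4, map_one]
  have h7 := neg_one_sq χ
  linear_combination (χ (-1) * χ 4) * h3 + (- χ 4 * jacobiSum χ χ + jacobiSum (eta K L) χ *
    (eta K L * χ) (1 / 4) * χ 4) * h7 + jacobiSum (eta K L) χ * h5

omit [DecidableEq K] in
theorem inv_eq_of {η χ : MulChar K L} (hη : η * η = 1) (hχ : χ * χ = η) :
    η * χ = χ⁻¹ ∧ η * χ⁻¹ = χ ∧ χ⁻¹ * χ⁻¹ = η := by
  have h1 : χ * χ * (χ * χ) = 1 := by rw [hχ, hη]
  have h2 : η⁻¹ = η := inv_eq_of_mul_eq_one_right hη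
  refine ⟨?_, ?_, ?_⟩
  · rw [eq_inv_iff_mul_eq_one, mul_assoc, hχ, hη]
  · rw [← hχ, mul_assoc, mul_inv_cancel, mul_one]
  · rw [← mul_inv, hχ, h2]

theorem eta_mul_self : eta K L * eta K L = 1 := by
  rw [← pow_two]
  exact (eta_quadratic (K := K) (L := L)).sq_eq_one

theorem sel_eta [CharZero L] (h2 : ringChar K ≠ 2) {χ : MulChar K L} (hχ : χ * χ = eta K L) :
    sel (eta K L) (eta K L) χ = jacobiSum (eta K L) χ ^ 2 := by
  have hη1 : eta K L ≠ 1 := eta_ne_one h2
  obtain ⟨e1, e2, e3⟩ := inv_eq_of eta_mul_self hχ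
  have hχ1 : χ ≠ 1 := by
    rintro rfl
    rw [mul_one] at hχ
    exact hη1 hχ.symm
  have hχ1' : χ⁻¹ ≠ 1 := inv_ne_one.2 hχ1
  have h := selberg h2 (C := χ⁻¹) hη1 hη1 hχ1' (by rw [e2]; exact hχ1) (by rw [e2]; exact hχ1)
  rw [e2] at h
  have hJ : jacobiSum (eta K L) χ⁻¹ ≠ 0 := by
    intro h0
    have h1 : ringChar L ≠ ringChar K := by
      rw [ringChar.eq_zero]
      intro h
      have : CharP K 0 := by
        rw [h]
        exact ringChar.charP K
      have : CharZero K := CharP.charP_to_charZero K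
      exact not_injective_infinite_finite (Nat.cast : ℕ → K) Nat.cast_injective
    have h3 := jacobiSum_mul_jacobiSum_inv h1 hη1 hχ1' (by rw [e2]; exact hχ1)
    rw [h0, zero_mul] at h3
    exact (Nat.cast_ne_zero (R := L)).2 Fintype.card_ne_zero h3.symm
  have h5 : sel (eta K L) (eta K L) χ = χ⁻¹ 4 * (jacobiSum χ χ * jacobiSum (eta K L) χ) := by
    apply mul_left_cancel₀ hJ
    rw [h]
    ring
  have h6 := jac_self h2 hχ1 (by rw [e1]; exact hχ1')
  have h7 : χ 4 * χ⁻¹ 4 = 1 := mul_inv_apply χ (four_ne h2)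
  have h8 : χ 4 * χ 4 = 1 := by rw [← MulChar.mul_apply, hχ, eta_four h2]
  have h9 : χ⁻¹ 4 = χ 4 := by
    calc χ⁻¹ 4 = χ⁻¹ 4 * (χ 4 * χ 4) := by rw [h8, mul_one]
      _ = (χ 4 * χ⁻¹ 4) * χ 4 := by ring
      _ = χ 4 := by rw [h7, one_mul]
  rw [h5, h9]
  linear_combination jacobiSum (eta K L) χ * h6

theorem quad_eta [CharZero L] (h2 : ringChar K ≠ 2) {χ : MulChar K L} (hχ : χ * χ = eta K L) :
    quad (eta K L) (eta K L) (eta K L) (eta K L) (eta K L) =
      jacobiSum (eta K L) χ ^ 2 + jacobiSum (eta K L) χ⁻¹ ^ 2 := by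
  have h20 := two_ne h2
  have h40 := four_ne h2
  obtain ⟨e1, e2, e3⟩ := inv_eq_of eta_mul_self hχ
  rw [← sel_eta h2 hχ, ← sel_eta h2 e3]
  set η := eta K L with hη
  -- the sum and the difference of the variables
  have h1 : quad η η η η η = ∑ δ, ∑ s,
      η ((s ^ 2 - δ ^ 2) / 4) * η (1 - s + (s ^ 2 - δ ^ 2) / 4) * χ (δ ^ 2) := by
    have h3 : quad η η η η η = ∑ x, ∑ δ, η x * η (1 - x) * η (x - δ) * η (1 - (x - δ)) * η δ := by
      rw [quad]
      refine sum_congr rfl fun x _ => ?_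
      rw [← Equiv.sum_comp (Equiv.subLeft x)]
      refine sum_congr rfl fun δ _ => ?_
      rw [Equiv.subLeft_apply, sub_sub_cancel]
    rw [h3, sum_comm]
    refine sum_congr rfl fun δ _ => ?_
    rw [← Equiv.sum_comp ((Equiv.addRight δ).trans (Equiv.mulRight₀ (1 / 2 : K)
      (one_div_ne_zero h20)))]
    refine sum_congr rfl fun s _ => ?_
    simp only [Equiv.trans_apply, Equiv.coe_addRight, Equiv.mulRight₀_apply]
    have a1 : (s ^ 2 - δ ^ 2) / 4 = ((s + δ) * (1 / 2)) * ((s + δ) * (1 / 2) - δ) := by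
      field_simp
      ring
    have a2 : 1 - s + (s ^ 2 - δ ^ 2) / 4 =
        (1 - (s + δ) * (1 / 2)) * (1 - ((s + δ) * (1 / 2) - δ)) := by
      field_simp
      ring
    have a3 : χ (δ ^ 2) = η δ := by rw [map_pow, pow_two, ← MulChar.mul_apply, hχ]
    rw [a3, a2, a1]
    generalize (s + δ) * (1 / 2) = u
    rw [map_mul, map_mul]
    ring
  rw [h1, sum_comm, sel, sel, ← sum_add_distrib]
  refine sum_congr rfl fun s _ => ?_
  rw [sum_sq h2 (fun D => η ((s ^ 2 - D) / 4) * η (1 - s + (s ^ 2 - D) / 4) * χ D),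
    ← sum_add_distrib, ← Equiv.sum_comp ((Equiv.mulLeft₀ (4 : K) h40).trans (Equiv.subLeft (s ^ 2)))]
  refine sum_congr rfl fun m _ => ?_
  simp only [Equiv.trans_apply, Equiv.subLeft_apply, Equiv.mulLeft₀_apply]
  have b1 : (s ^ 2 - (s ^ 2 - 4 * m)) / 4 = m := by
    field_simp
    ring
  rw [b1, ← hη, ← e1, MulChar.mul_apply]
  ring

/-- the case `p = 3` modulo `4` -/
theorem quad_eta_eq [CharZero L] {p : ℕ} [Fact p.Prime] [CharP K p] (hp : p % 4 = 3)
    {χ : MulChar K L} (hχ : χ * χ = eta K L) :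
    quad (eta K L) (eta K L) (eta K L) (eta K L) (eta K L) = 2 * Fintype.card K := by
  have hrc : ringChar K = p := ringChar.eq K p
  have h2 : ringChar K ≠ 2 := by rw [hrc]; omega
  have hp_ne : p ≠ 0 := (Fact.out : p.Prime).ne_zero
  have hη1 : eta K L ≠ 1 := eta_ne_one h2
  obtain ⟨e1, e2, e3⟩ := inv_eq_of eta_mul_self hχ
  have hχ1 : χ ≠ 1 := by
    rintro rfl
    rw [mul_one] at hχ
    exact hη1 hχ.symm
  have hη2 : eta K L ^ 2 = 1 := by rw [pow_two, eta_mul_self]
  -- Frobenius
  have h1 : jacobiSum (eta K L) χ = jacobiSum (eta K L) χ⁻¹ := by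
    have hχp : χ ^ p = χ⁻¹ := by
      have h3 : p = 4 * (p / 4) + 3 := by omega
      have h4 : χ ^ 4 = 1 := by
        rw [show (4 : ℕ) = 2 * 2 from rfl, pow_mul, pow_two χ, hχ, hη2]
      rw [h3, pow_add, pow_mul, h4, one_pow, one_mul, pow_succ, pow_two, hχ, e1]
    have hηp : eta K L ^ p = eta K L := by
      have h3 : p = 2 * (p / 2) + 1 := by omega
      rw [h3, pow_add, pow_mul, hη2, one_pow, one_mul, pow_one]
    have hbij : Function.Bijective (frobenius K p) :=
      Finite.injective_iff_bijective.1 (frobenius_inj K p)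
    rw [jacobiSum, jacobiSum, ← Equiv.sum_comp (Equiv.ofBijective _ hbij)]
    refine sum_congr rfl fun x _ => ?_
    rw [Equiv.ofBijective_apply]
    have a1 : 1 - frobenius K p x = (1 - x) ^ p := by
      rw [← frobenius_def, map_sub, map_one]
    rw [a1, frobenius_def, map_pow, map_pow, ← MulChar.pow_apply' _ hp_ne, ← MulChar.pow_apply' _ hp_ne,
      hηp, hχp]
  have h3 : ringChar L ≠ ringChar K := by
    rw [ringChar.eq_zero, hrc]
    exact (Fact.out : p.Prime).ne_zero.symm
  have h5 := jacobiSum_mul_jacobiSum_inv h3 hη1 hχ1 (by rw [e1]; exact inv_ne_one.2 hχ1)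
  have h6 : (eta K L)⁻¹ = eta K L := inv_eq_of_mul_eq_one_right eta_mul_self
  rw [h6, ← h1] at h5
  rw [quad_eta h2 hχ, ← h1]
  linear_combination 2 * h5

end

section

variable {K : Type*} [Field K] [Fintype K] [DecidableEq K]

/-- the quadratic character is a square if the number of elements is one modulo four -/
theorem exists_sqrt (h2 : ringChar K ≠ 2) (h : 4 ∣ Fintype.card K - 1) :
    ∃ χ : MulChar K ℂ, χ * χ = eta K ℂ := by
  obtain ⟨χ, hχ⟩ := MulChar.exists_mulChar_orderOf K h (Complex.isPrimitiveRoot_exp 4 (by norm_num))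
  refine ⟨χ, ?_⟩
  have h4 : χ ^ 4 = 1 := by rw [← hχ, pow_orderOf_eq_one]
  have hne : χ * χ ≠ 1 := by
    intro h0
    rw [← pow_two] at h0
    have h1 := orderOf_dvd_of_pow_eq_one h0
    rw [hχ] at h1
    norm_num at h1
  have hsq : ∀ x : K, x ≠ 0 → IsSquare x → (χ * χ) x = 1 := by
    rintro x hx ⟨y, rfl⟩
    have hy : y ≠ 0 := fun h => hx (by rw [h, mul_zero])
    rw [MulChar.mul_apply, map_mul]
    have h5 : χ y ^ 4 = 1 := by
      rw [← MulChar.pow_apply' χ (by norm_num), h4,
        MulChar.one_apply (isUnit_iff_ne_zero.2 hy)]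
    linear_combination h5
  -- a value which is not one
  obtain ⟨z, hz⟩ := MulChar.ne_one_iff.1 hne
  have hz0 : (z : K) ≠ 0 := z.ne_zero
  have hzn : ¬ IsSquare (z : K) := fun h => hz (hsq _ hz0 h)
  have hzm : (χ * χ) (z : K) = -1 := by
    have h5 : (χ * χ) (z : K) * (χ * χ) (z : K) = 1 := by
      rw [← map_mul]
      exact hsq _ (mul_ne_zero hz0 hz0) ⟨z, rfl⟩
    rcases mul_self_eq_one_iff.1 h5 with h6 | h6
    · exact absurd h6 hz
    · exact h6
  apply MulChar.ext'
  intro x
  by_cases hx : x = 0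
  · rw [hx, map_zero'', map_zero'']
  by_cases hs : IsSquare x
  · rw [hsq x hx hs, eta_apply, (quadraticChar_one_iff_isSquare hx).2 hs, Int.cast_one]
  · have h6 : IsSquare (x * z) := by
      rw [← quadraticChar_one_iff_isSquare (mul_ne_zero hx hz0), map_mul,
        quadraticChar_neg_one_iff_not_isSquare.2 hs, quadraticChar_neg_one_iff_not_isSquare.2 hzn]
      norm_num
    have h7 := hsq _ (mul_ne_zero hx hz0) h6
    rw [map_mul, hzm] at h7
    rw [eta_apply, quadraticChar_neg_one_iff_not_isSquare.2 hs]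
    push_cast
    linear_combination -h7

theorem four_dvd {p f : ℕ} (hp : p % 4 = 3) : 4 ∣ p ^ (2 * f) - 1 := by
  have h1 : p ^ (2 * f) % 4 = 1 := by
    rw [pow_mul, Nat.pow_mod, Nat.pow_mod p 2 4, hp]
    norm_num
  have h2 := Nat.div_add_mod (p ^ (2 * f)) 4
  exact ⟨p ^ (2 * f) / 4, by omega⟩

/-- the sum of the quadratic character over the complement of the quadrilateral -/
theorem quad_int {p f : ℕ} [Fact p.Prime] (hp : p % 4 = 3) [CharP K p]
    (hK : Fintype.card K = p ^ (2 * f)) :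
    ∑ x : K, ∑ y : K, quadraticChar K x * quadraticChar K (1 - x) * quadraticChar K y *
      quadraticChar K (1 - y) * quadraticChar K (x - y) = 2 * Fintype.card K := by
  have h2 : ringChar K ≠ 2 := by rw [ringChar.eq K p]; omega
  obtain ⟨χ, hχ⟩ := exists_sqrt h2 (K := K) (by rw [hK]; exact four_dvd hp)
  have h := quad_eta_eq hp hχ
  simp only [quad, eta_apply] at h
  exact_mod_cast h

theorem quad_eta_any {p f : ℕ} [Fact p.Prime] (hp : p % 4 = 3) [CharP K p]
    (hK : Fintype.card K = p ^ (2 * f)) (κ : Type*) [Field κ] :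
    quad (eta K κ) (eta K κ) (eta K κ) (eta K κ) (eta K κ) = 2 * Fintype.card K := by
  have h := congrArg (fun z : ℤ => (z : κ)) (quad_int (K := K) hp hK)
  simp only [Int.cast_sum, Int.cast_mul, Int.cast_ofNat, Int.cast_natCast] at h
  simp only [quad, eta_apply]
  exact h

end

section

universe v w

variable {K : Type v} {L : Type w} [Field K] [Fintype K] [DecidableEq K] [Field L]

/-- the sum for quadratic twists of characters of order a power of an odd prime `r`, without a
condition on the quadratic parts if `p` is three modulo four -/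
theorem quad_residue_three [CharZero L] {p f r j : ℕ} [Fact p.Prime] (hp : p % 4 = 3) [CharP K p]
    (hcard : Fintype.card K = p ^ (2 * f)) [Fact r.Prime] (hr : r ≠ 2)
    {A B C D E A' B' C' D' E' : MulChar K L} {a b c d e : ℕ}
    (hA : A = eta K L ^ a * A') (hB : B = eta K L ^ b * B') (hC : C = eta K L ^ c * C')
    (hD : D = eta K L ^ d * D') (hE : E = eta K L ^ e * E') (hA' : A' ^ r ^ j = 1)
    (hB' : B' ^ r ^ j = 1) (hC' : C' ^ r ^ j = 1) (hD' : D' ^ r ^ j = 1) (hE' : E' ^ r ^ j = 1)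
    (hK : Fintype.card K % r = 1) :
    quad A B C D E ≠ -2 * Fintype.card K := by
  have hrp : r.Prime := Fact.out
  have h2 : ringChar K ≠ 2 := by rw [ringChar.eq K p]; omega
  have hneg : quadraticChar K (-1) = 1 := by
    rw [quadraticChar_neg_one h2, ZMod.χ₄_nat_one_mod_four]
    have h4 := four_dvd (f := f) hp
    have h5 : 1 ≤ p ^ (2 * f) := Nat.one_le_pow _ _ (Fact.out : p.Prime).pos
    rw [hcard]
    omega
  by_cases hodd : Odd a ∧ Odd b ∧ Odd c ∧ Odd d ∧ Odd e
  swap
  · exact quad_residue_two hr h2 hneg hA hB hC hD hE hA' hB' hC' hD' hE' hodd hK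
  obtain ⟨κ, _, φ, hch⟩ := exists_hom L r
  have h20 : (2 : κ) ≠ 0 := by
    intro h
    have h1 : ((2 : ℕ) : κ) = 0 := by exact_mod_cast h
    rw [CharP.cast_eq_zero_iff κ r] at h1
    have h9 := Nat.le_of_dvd two_pos h1
    have := hrp.two_le
    omega
  have hq : (Fintype.card K : κ) = 1 := by
    have h : (Fintype.card K : κ) = ((1 : ℕ) : κ) := by
      rw [CharP.natCast_eq_natCast κ r, Nat.ModEq, hK, Nat.mod_eq_of_lt hrp.one_lt]
    rwa [Nat.cast_one] at h
  have hval : ∀ {χ χ' : MulChar K L} {n : ℕ}, χ = eta K L ^ n * χ' → Odd n → χ' ^ r ^ j = 1 →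
      ∀ x : K, φ (liftR χ x) = eta K κ x := by
    intro χ χ' n h hn h' x
    by_cases hx : x = 0
    · rw [hx, (liftR χ).map_nonunit not_isUnit_zero, map_zero'', map_zero]
    have hn1 : eta K L ^ n = eta K L := by
      obtain ⟨m, rfl⟩ := hn
      rw [pow_succ, pow_mul, pow_two, eta_mul_self, one_pow, one_mul]
    have hu : IsUnit x := isUnit_iff_ne_zero.2 hx
    obtain ⟨u, rfl⟩ := hu
    have h1 : liftR χ (u : K) =
        ((quadraticChar K (u : K) : ℤ) : integralClosure ℤ L) * liftR χ' (u : K) := by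
      apply Subtype.ext
      show χ u = _
      rw [h, hn1, MulChar.mul_apply, eta_apply]
      rfl
    have h2 : φ (liftR χ' (u : K)) = 1 := by
      apply eq_one_of_pow (r := r) (e := j)
      rw [← map_pow]
      have h3 : (liftR χ' (u : K)) ^ r ^ j = 1 := by
        apply Subtype.ext
        have h4 : χ' (u : K) ^ r ^ j = 1 := by
          rw [← MulChar.pow_apply_coe, h', MulChar.one_apply_coe]
        exact h4
      rw [h3, map_one]
    rw [h1, map_mul, h2, mul_one, map_intCast, eta_apply]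
  intro hS
  have h3 : (∑ x, ∑ y, liftR A x * liftR B (1 - x) * liftR C y * liftR D (1 - y) *
      liftR E (x - y) : integralClosure ℤ L) = -2 * (Fintype.card K : integralClosure ℤ L) := by
    apply Subtype.ext
    rw [quad_coe, hS]
    simp only [neg_mul, NegMemClass.coe_neg, MulMemClass.coe_mul, SubringClass.coe_natCast,
      neg_inj, mul_eq_mul_right_iff, Nat.cast_eq_zero, Fintype.card_ne_zero, or_false]
    exact (map_ofNat (algebraMap (integralClosure ℤ L) L) 2).symm
  have h4 := congrArg φ h3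
  rw [map_sum] at h4
  have h5 : ∀ x : K, φ (∑ y, liftR A x * liftR B (1 - x) * liftR C y * liftR D (1 - y) *
      liftR E (x - y)) =
      ∑ y : K, eta K κ x * eta K κ (1 - x) * eta K κ y * eta K κ (1 - y) * eta K κ (x - y) := by
    intro x
    rw [map_sum]
    refine sum_congr rfl fun y _ => ?_
    rw [map_mul, map_mul, map_mul, map_mul, hval hA hodd.1 hA', hval hB hodd.2.1 hB',
      hval hC hodd.2.2.1 hC', hval hD hodd.2.2.2.1 hD', hval hE hodd.2.2.2.2 hE']
  have h6 := quad_eta_any (K := K) hp hcard κ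
  rw [quad] at h6
  rw [sum_congr rfl fun x _ => h5 x, h6, map_mul, map_neg, map_natCast, map_ofNat, hq] at h4
  have h7 : (2 : κ) * 2 = 0 := by linear_combination h4
  rcases mul_eq_zero.1 h7 with h | h <;> exact h20 h

end

end Pool.Agent.Helper40.QC
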