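import Pool.Agent.Helper40.QC.Eleven

/-!
# Exponents without even height modulo nineteen
-/

set_option autoImplicit false

namespace Pool.Agent.Helper40.QC

open Pool.Agent.Helper73.QC

theorem check_nineteen : check 19 = true := by decide +kernel

/-- exponents modulo nineteen -/
theorem nineteen (a : Fin 5 → ZMod 19) (ha : ∀ i, residues a i ≠ 0) :
    (∃ h : (ZMod 19)ˣ, Even (height fun i => (h : ZMod 19) * a i)) ∨ disc a ≠ 0 :=
  have : Fact (Nat.Prime 19) := ⟨by norm_num⟩
  of_check check_nineteen a ha

end Pool.Agent.Helper40.QC
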