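import Pool.Agent.Helper73.QC.Fun

/-!
# The functional equation for the quadrilateral without a condition on the signs

`Pool.Agent.Helper73.QC.functional_equation` assumes that the characters are trivial at `-1`.
Here the signs are kept: they cancel.
-/

open Finset

namespace Pool.Agent.Helper40.QC

open Pool.Agent.Helper73.LF Pool.Agent.Helper73.QC

section

variable {K L : Type*} [Field K] [Field L]

theorem neg_one_sq (χ : MulChar K L) : χ (-1) * χ (-1) = 1 := by
  rw [← map_mul, neg_one_mul, neg_neg, map_one]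

theorem map_neg_arg' (χ : MulChar K L) (x : K) : χ (-x) = χ (-1) * χ x := by
  rw [← neg_one_mul, map_mul]

theorem map_sub_arg' (χ : MulChar K L) (x y : K) : χ (x - y) = χ (-1) * χ (y - x) := by
  rw [← neg_sub, map_neg_arg']

theorem inv_neg_one' (χ : MulChar K L) : χ⁻¹ (-1) = χ (-1) := by
  have h1 := mul_inv_apply χ (x := (-1 : K)) (neg_ne_zero.2 one_ne_zero)
  have h2 := neg_one_sq χ
  linear_combination (χ (-1)) * h1 - (χ⁻¹ (-1)) * h2

variable [Fintype K]

theorem quad_symm' (A B C D E : MulChar K L) :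
    quad A B C D E = E (-1) * quad C D A B E := by
  rw [quad, quad, sum_comm, mul_sum]
  refine sum_congr rfl fun y _ => ?_
  rw [mul_sum]
  refine sum_congr rfl fun x _ => ?_
  rw [map_sub_arg' E x y]
  ring

/-- duality along the fibre, with a permutation of the four points -/
theorem fib_gauss' {A B E : MulChar K L} (hA : A ≠ 1) (hB : B ≠ 1) (hE : E ≠ 1)
    (hM : A * B * E ≠ 1) {ψ : AddChar K L} (hψ : ψ.IsPrimitive) (y : K) :
    gaussSum A⁻¹ ψ * gaussSum B⁻¹ ψ * gaussSum E⁻¹ ψ * fib A B E y =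
      A (-1) * (Fintype.card K * gaussSum (A * B * E)⁻¹ ψ * fib B⁻¹ A⁻¹ (A * B * E) y) := by
  classical
  have h1 := part_one hA hB hE hψ (1 : K) y
  have h2 : ∑ x, A x * B (x - 1) * E (x - y) = B (-1) * fib A B E y := by
    rw [fib, mul_sum]
    refine sum_congr rfl fun x _ => ?_
    rw [map_sub_arg' B x 1]
    ring
  rw [h2, gs] at h1
  -- replace `b` by `-b`
  have h3 : ∀ t : K, ∑ c, A⁻¹ (-(Equiv.neg K t) - c) * B⁻¹ (Equiv.neg K t) * E⁻¹ c *
      ψ (-((Equiv.neg K t) * 1) - c * y) =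
        B (-1) * ∑ c, A⁻¹ (t - c) * B⁻¹ t * E⁻¹ c * ψ (t - c * y) := by
    intro t
    rw [mul_sum]
    refine sum_congr rfl fun c _ => ?_
    rw [Equiv.neg_apply, neg_neg, mul_one, neg_neg, map_neg_arg' B⁻¹ t, inv_neg_one']
    ring
  rw [← Equiv.sum_comp (Equiv.neg K), sum_congr rfl fun t _ => h3 t, ← mul_sum, sum_comm] at h1
  -- `b = c t`
  have h4 : ∀ c : K, ∑ b, A⁻¹ (b - c) * B⁻¹ b * E⁻¹ c * ψ (b - c * y) =
      A (-1) * ∑ t, B⁻¹ t * A⁻¹ (1 - t) * ((A * B * E)⁻¹ c * ψ (c * (t - y))) := by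
    intro c
    by_cases hc : c = 0
    · subst hc
      simp only [map_zero'', mul_zero, zero_mul, sum_const_zero]
    · rw [← Equiv.sum_comp (Equiv.mulLeft₀ c hc), mul_sum]
      refine sum_congr rfl fun t _ => ?_
      rw [Equiv.mulLeft₀_apply]
      have e1 : c * t - c = c * (t - 1) := by ring
      have e2 : c * t - c * y = c * (t - y) := by ring
      rw [e1, e2, map_mul, map_mul, map_sub_arg' A⁻¹ t 1, inv_neg_one', mul_inv, mul_inv,
        MulChar.mul_apply, MulChar.mul_apply]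
      ring
  rw [sum_congr rfl fun c _ => h4 c, ← mul_sum, sum_comm] at h1
  have h6 : ∑ t, ∑ c, B⁻¹ t * A⁻¹ (1 - t) * ((A * B * E)⁻¹ c * ψ (c * (t - y))) =
      gaussSum (A * B * E)⁻¹ ψ * fib B⁻¹ A⁻¹ (A * B * E) y := by
    rw [fib, mul_sum]
    refine sum_congr rfl fun t _ => ?_
    have h5 := expand hM ψ (t - y)
    rw [← mul_sum, ← h5]
    ring
  rw [h6] at h1
  have hB2 := neg_one_sq B
  linear_combination (B (-1)) * h1 +
    (Fintype.card K * (A (-1)) * gaussSum (A * B * E)⁻¹ ψ * fib B⁻¹ A⁻¹ (A * B * E) y -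
      gaussSum A⁻¹ ψ * gaussSum B⁻¹ ψ * gaussSum E⁻¹ ψ * fib A B E y) * hB2

/-- the involution exchanging `0` and `1`, and `y` and infinity -/
theorem fib_swap' (A B E : MulChar K L) {y : K} (hy : y ≠ 0) (hy1 : y ≠ 1) :
    fib A B E y =
      A (-1) * E (-1) * ((A * E) y * (B * E) (1 - y) * fib B A (A * B * E)⁻¹ y) := by
  classical
  have hs : ∀ x : K, x ≠ y → (1 - x) * y / (y - x) ≠ y := by
    intro x hx h
    have h1 : y - x ≠ 0 := sub_ne_zero.2 (Ne.symm hx)
    rw [div_eq_iff h1] at h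
    have h2 : (1 - x) = y - x := by
      have := mul_left_cancel₀ hy (a := y) (b := 1 - x) (c := y - x) (by linear_combination h)
      exact this
    apply hy1
    linear_combination - h2
  have hinv : ∀ x : K, x ≠ y → (1 - (1 - x) * y / (y - x)) * y / (y - (1 - x) * y / (y - x)) = x := by
    intro x hx
    have h1 : y - x ≠ 0 := sub_ne_zero.2 (Ne.symm hx)
    have h2 : y - (1 - x) * y / (y - x) ≠ 0 := sub_ne_zero.2 (Ne.symm (hs x hx))
    rw [div_eq_iff h2]
    field_simp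
    ring
  have hz : ∀ G : K → L, G y = 0 → ∑ x, G x = ∑ x ∈ univ.filter (fun x => x ≠ y), G x := by
    intro G hG
    rw [sum_filter]
    refine sum_congr rfl fun x _ => ?_
    split_ifs with h
    · rfl
    · rw [not_not.1 h, hG]
  rw [fib, fib, ← mul_assoc, mul_sum, hz _ (by rw [sub_self, map_zero'', mul_zero]),
    hz (fun x => A (-1) * E (-1) * ((A * E) y * (B * E) (1 - y)) *
      (B x * A (1 - x) * (A * B * E)⁻¹ (x - y)))
      (by rw [sub_self, map_zero'', mul_zero, mul_zero])]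
  refine sum_nbij' (fun x => (1 - x) * y / (y - x)) (fun x => (1 - x) * y / (y - x)) ?_ ?_ ?_ ?_ ?_
  · intro x hx
    rw [mem_filter] at hx ⊢
    exact ⟨mem_univ _, hs x hx.2⟩
  · intro x hx
    rw [mem_filter] at hx ⊢
    exact ⟨mem_univ _, hs x hx.2⟩
  · intro x hx
    rw [mem_filter] at hx
    exact hinv x hx.2
  · intro x hx
    rw [mem_filter] at hx
    exact hinv x hx.2
  · intro x hx
    rw [mem_filter] at hx
    have h1 : y - x ≠ 0 := sub_ne_zero.2 (Ne.symm hx.2)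
    -- `x` in terms of its image `t`
    set t := (1 - x) * y / (y - x) with ht
    have hty : t ≠ y := hs x hx.2
    have h2 : y - t ≠ 0 := sub_ne_zero.2 (Ne.symm hty)
    have hx' : (1 - t) * y / (y - t) = x := hinv x hx.2
    have hy1' : (1 : K) - y ≠ 0 := sub_ne_zero.2 (Ne.symm hy1)
    have e1 : x * (y - t) = (1 - t) * y := by
      rw [← hx', div_mul_cancel₀ _ h2]
    have e2 : (1 - x) * (y - t) = - (t * (1 - y)) := by linear_combination - e1
    have e3 : (x - y) * (y - t) = y * (1 - y) := by linear_combination e1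
    have a1 : A x * A (y - t) = A (1 - t) * A y := by rw [← map_mul, e1, map_mul]
    have a2 : B (1 - x) * B (y - t) = B (-1) * (B t * B (1 - y)) := by
      rw [← map_mul, e2, map_neg_arg' B, map_mul]
    have a3 : E (x - y) * E (y - t) = E y * E (1 - y) := by rw [← map_mul, e3, map_mul]
    have b1 := mul_inv_apply A h2
    have b2 := mul_inv_apply B h2
    have b3 := mul_inv_apply E h2
    have sA := neg_one_sq A
    have sE := neg_one_sq E
    rw [map_sub_arg' _ t y, inv_neg_one', mul_inv, mul_inv,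
      MulChar.mul_apply, MulChar.mul_apply, MulChar.mul_apply, MulChar.mul_apply,
      MulChar.mul_apply, MulChar.mul_apply]
    calc A x * B (1 - x) * E (x - y)
        = (A x * (A (y - t) * A⁻¹ (y - t))) * (B (1 - x) * (B (y - t) * B⁻¹ (y - t))) *
            (E (x - y) * (E (y - t) * E⁻¹ (y - t))) := by rw [b1, b2, b3]; ring
      _ = (A x * A (y - t)) * (B (1 - x) * B (y - t)) * (E (x - y) * E (y - t)) *
            (A⁻¹ (y - t) * B⁻¹ (y - t) * E⁻¹ (y - t)) := by ring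
      _ = (A (-1) * A (-1)) * (E (-1) * E (-1)) * B (-1) * (A y * E y * (B (1 - y) * E (1 - y)) *
            (B t * A (1 - t) * (A⁻¹ (y - t) * B⁻¹ (y - t) * E⁻¹ (y - t)))) := by
          rw [a1, a2, a3, sA, sE]; ring
      _ = _ := by ring

theorem fib_dual' {A B E : MulChar K L} (hA : A ≠ 1) (hB : B ≠ 1) (hE : E ≠ 1)
    (hM : A * B * E ≠ 1) {ψ : AddChar K L} (hψ : ψ.IsPrimitive) {y : K} (hy : y ≠ 0)
    (hy1 : y ≠ 1) :
    gaussSum A⁻¹ ψ * gaussSum B⁻¹ ψ * gaussSum (A * B * E) ψ * fib A B E y =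
      A (-1) * B (-1) * E (-1) * (Fintype.card K * gaussSum E ψ *
        ((A * E) y * (B * E) (1 - y) * fib A⁻¹ B⁻¹ E⁻¹ y)) := by
  have h1 := fib_swap' A B E hy hy1
  have hM' : (A * B * E)⁻¹ ≠ 1 := inv_ne_one.2 hM
  have e : B * A * (A * B * E)⁻¹ = E⁻¹ := by
    rw [mul_inv, mul_comm B A, ← mul_assoc, mul_inv_cancel, one_mul]
  have h2 := fib_gauss' hB hA hM' (by rw [e]; exact inv_ne_one.2 hE) hψ y
  rw [e, inv_inv, inv_inv] at h2
  rw [h1]
  linear_combination (A (-1) * E (-1) * ((A * E) y * (B * E) (1 - y))) * h2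

/-- the operation belonging to the point `x` -/
theorem quad_first' {A B C D E : MulChar K L} (hA : A ≠ 1) (hB : B ≠ 1) (hE : E ≠ 1)
    (hM : A * B * E ≠ 1) {ψ : AddChar K L} (hψ : ψ.IsPrimitive) :
    gaussSum A⁻¹ ψ * gaussSum B⁻¹ ψ * gaussSum (A * B * E) ψ * quad A B C D E =
      A (-1) * B (-1) * E (-1) *
        (Fintype.card K * gaussSum E ψ * quad A⁻¹ B⁻¹ (A * C * E) (B * D * E) E⁻¹) := by
  rw [quad_eq, quad_eq, mul_sum, mul_sum, mul_sum]
  refine sum_congr rfl fun y _ => ?_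
  by_cases hy : y = 0
  · subst hy
    rw [map_zero'', map_zero'']
    ring
  by_cases hy1 : y = 1
  · subst hy1
    rw [sub_self, map_zero'', map_zero'']
    ring
  have h := fib_dual' hA hB hE hM hψ hy hy1
  rw [MulChar.mul_apply, MulChar.mul_apply] at h
  rw [MulChar.mul_apply, MulChar.mul_apply, MulChar.mul_apply, MulChar.mul_apply]
  linear_combination (C y * D (1 - y)) * h

/-- the operation belonging to the point `y` -/
theorem quad_second' {A B C D E : MulChar K L} (hC : C ≠ 1) (hD : D ≠ 1) (hE : E ≠ 1)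
    (hM : C * D * E ≠ 1) {ψ : AddChar K L} (hψ : ψ.IsPrimitive) :
    gaussSum C⁻¹ ψ * gaussSum D⁻¹ ψ * gaussSum (C * D * E) ψ * quad A B C D E =
      C (-1) * D (-1) * E (-1) *
        (Fintype.card K * gaussSum E ψ * quad (A * C * E) (B * D * E) C⁻¹ D⁻¹ E⁻¹) := by
  have h := quad_first' (C := A) (D := B) hC hD hE hM hψ
  rw [mul_comm C A, mul_comm D B] at h
  rw [quad_symm' A B C D E, quad_symm' (A * C * E) (B * D * E) C⁻¹ D⁻¹ E⁻¹, inv_neg_one']
  linear_combination (E (-1)) * h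

theorem gauss_mul_inv' {χ : MulChar K L} (hχ : χ ≠ 1) {ψ : AddChar K L} (hψ : ψ.IsPrimitive) :
    gaussSum χ ψ * gaussSum χ⁻¹ ψ = χ (-1) * Fintype.card K := by
  have h1 := gaussSum_mul_gaussSum_eq_card hχ hψ
  have h2 : gaussSum χ⁻¹ ψ⁻¹ = χ (-1) * gaussSum χ⁻¹ ψ := by
    have h3 := gaussSum_mulShift χ⁻¹ ψ (-1 : Kˣ)
    rw [Units.val_neg, Units.val_one, inv_neg_one'] at h3
    have h4 : ψ.mulShift (-1) = ψ⁻¹ := by
      ext x
      rw [AddChar.inv_apply, AddChar.mulShift_apply, neg_one_mul]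
    rw [h4] at h3
    rw [← h3, ← mul_assoc, neg_one_sq, one_mul]
  rw [h2] at h1
  linear_combination (χ (-1)) * h1 - (gaussSum χ ψ * gaussSum χ⁻¹ ψ) * neg_one_sq χ

/-- the functional equation, for arbitrary nontrivial characters -/
theorem functional_equation' {A B C D E : MulChar K L} (hA : A ≠ 1) (hB : B ≠ 1) (hC : C ≠ 1)
    (hD : D ≠ 1) (hE : E ≠ 1) (hABE : A * B * E ≠ 1) (hCDE : C * D * E ≠ 1)
    (hACE : A * C * E ≠ 1) (hBDE : B * D * E ≠ 1) (hall : A * B * C * D * E ≠ 1)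
    {ψ : AddChar K L} (hψ : ψ.IsPrimitive) :
    ten A B C D E ψ * quad A B C D E =
      (Fintype.card K : L) ^ 5 * quad A⁻¹ B⁻¹ C⁻¹ D⁻¹ E⁻¹ := by
  have hE' : E⁻¹ ≠ 1 := inv_ne_one.2 hE
  have h1 := quad_first' (C := C) (D := D) hA hB hE hABE hψ
  have e1 : A * C * E * (B * D * E) * E⁻¹ = A * B * C * D * E := by
    calc A * C * E * (B * D * E) * E⁻¹ = A * B * C * D * E * (E * E⁻¹) := by
          simp only [mul_assoc, mul_comm, mul_left_comm]
      _ = A * B * C * D * E := by rw [mul_inv_cancel, mul_one]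
  have h2 := quad_second' (A := A⁻¹) (B := B⁻¹) hACE hBDE hE' (by rw [e1]; exact hall) hψ
  have e2 : A⁻¹ * (A * C * E) * E⁻¹ = C := by
    calc A⁻¹ * (A * C * E) * E⁻¹ = C * (A * A⁻¹) * (E * E⁻¹) := by
          simp only [mul_assoc, mul_comm, mul_left_comm]
      _ = C := by rw [mul_inv_cancel, mul_inv_cancel, mul_one, mul_one]
  have e3 : B⁻¹ * (B * D * E) * E⁻¹ = D := by
    calc B⁻¹ * (B * D * E) * E⁻¹ = D * (B * B⁻¹) * (E * E⁻¹) := by
          simp only [mul_assoc, mul_comm, mul_left_comm]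
      _ = D := by rw [mul_inv_cancel, mul_inv_cancel, mul_one, mul_one]
  rw [e1, e2, e3, inv_inv, inv_neg_one'] at h2
  have h3 := quad_first' (C := (A * C * E)⁻¹) (D := (B * D * E)⁻¹) hC hD hE hCDE hψ
  have e4 : C * (A * C * E)⁻¹ * E = A⁻¹ := by
    calc C * (A * C * E)⁻¹ * E = A⁻¹ * (C * C⁻¹) * (E * E⁻¹) := by
          rw [mul_inv, mul_inv]
          simp only [mul_assoc, mul_comm, mul_left_comm]
      _ = A⁻¹ := by rw [mul_inv_cancel, mul_inv_cancel, mul_one, mul_one]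
  have e5 : D * (B * D * E)⁻¹ * E = B⁻¹ := by
    calc D * (B * D * E)⁻¹ * E = B⁻¹ * (D * D⁻¹) * (E * E⁻¹) := by
          rw [mul_inv, mul_inv]
          simp only [mul_assoc, mul_comm, mul_left_comm]
      _ = B⁻¹ := by rw [mul_inv_cancel, mul_inv_cancel, mul_one, mul_one]
  rw [e4, e5, quad_symm' C⁻¹ D⁻¹ A⁻¹ B⁻¹ E⁻¹, inv_neg_one'] at h3
  have h4 := gauss_mul_inv' hE hψ
  have sA := neg_one_sq A
  have sB := neg_one_sq B
  have sC := neg_one_sq C
  have sD := neg_one_sq D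
  have sE := neg_one_sq E
  simp only [MulChar.mul_apply] at h2
  rw [ten]
  set gA := gaussSum A⁻¹ ψ
  set gB := gaussSum B⁻¹ ψ
  set gC := gaussSum C⁻¹ ψ
  set gD := gaussSum D⁻¹ ψ
  set gE := gaussSum E⁻¹ ψ
  set gE' := gaussSum E ψ
  set g1 := gaussSum (A * B * E) ψ
  set g2 := gaussSum (C * D * E) ψ
  set g3 := gaussSum (A * C * E)⁻¹ ψ
  set g4 := gaussSum (B * D * E)⁻¹ ψ
  set g5 := gaussSum (A * B * C * D * E) ψ
  set Q := (Fintype.card K : L)
  set s0 := quad A B C D E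
  set s1 := quad A⁻¹ B⁻¹ (A * C * E) (B * D * E) E⁻¹
  set s2 := quad C D (A * C * E)⁻¹ (B * D * E)⁻¹ E
  set s3 := quad A⁻¹ B⁻¹ C⁻¹ D⁻¹ E⁻¹
  set a := A (-1)
  set b := B (-1)
  set c := C (-1)
  set d := D (-1)
  set e := E (-1)
  calc gA * gB * gC * gD * gE * g1 * g2 * g3 * g4 * g5 * s0
      = gC * gD * gE * g2 * g3 * g4 * g5 * (gA * gB * g1 * s0) := by ring
    _ = (a * b * e) * Q * gE' * gC * gD * gE * g2 * (g3 * g4 * g5 * s1) := by rw [h1]; ring
    _ = (a * b * e) * (a * b * c * d * e * (e * e)) * (Q * gE' * gE * Q * gE) *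
          (gC * gD * g2 * s2) := by rw [h2]; ring
    _ = (a * a) * (b * b) * (c * c) * (d * d) * (e * e) * (e * e) * (e * e) *
          (Q * (gE' * gE) * Q * (gE' * gE) * Q * s3) := by rw [h3]; ring
    _ = Q ^ 5 * s3 := by
        have e8 : e ^ 8 = 1 := by
          calc e ^ 8 = (e * e) ^ 4 := by ring
            _ = 1 := by rw [sE, one_pow]
        rw [h4, sA, sB, sC, sD]
        linear_combination (Q ^ 5 * s3) * e8

end

end Pool.Agent.Helper40.QC
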