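import Pool.Agent.Helper40.QC.Eleven

/-!
# The discriminant and the product of the ten exponents

`432 (36 P - Q ^ 2) = disc * (4 S₄ - S₂ ^ 2)` for the product `P` of the ten exponents and a quintic
`Q`.  So `P` is a square if the discriminant vanishes.
-/

set_option autoImplicit false

namespace Pool.Agent.Helper40.QC

open Pool.Agent.Helper73.QC

/-- the alternating quintic invariant -/
def quint {R : Type} [CommRing R] (a : Fin 5 → R) : R :=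
    a 0 ^ 3 * a 3 ^ 2 + 2 * a 0 ^ 3 * a 3 * a 4 + a 0 ^ 3 * a 4 ^ 2 + a 0 ^ 2 * a 1 * a 2 * a 3
    - a 0 ^ 2 * a 1 * a 2 * a 4 + 2 * a 0 ^ 2 * a 1 * a 3 ^ 2 + 3 * a 0 ^ 2 * a 1 * a 3 * a 4 +
    a 0 ^ 2 * a 1 * a 4 ^ 2 + 2 * a 0 ^ 2 * a 2 * a 3 ^ 2 + 3 * a 0 ^ 2 * a 2 * a 3 * a 4 + a 0
    ^ 2 * a 2 * a 4 ^ 2 + a 0 ^ 2 * a 3 ^ 3 + 4 * a 0 ^ 2 * a 3 ^ 2 * a 4 + 5 * a 0 ^ 2 * a 3 *
    a 4 ^ 2 + 2 * a 0 ^ 2 * a 4 ^ 3 - 2 * a 0 * a 1 ^ 2 * a 2 ^ 2 - a 0 * a 1 ^ 2 * a 2 * a 3 -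
    3 * a 0 * a 1 ^ 2 * a 2 * a 4 + a 0 * a 1 ^ 2 * a 3 * a 4 - a 0 * a 1 ^ 2 * a 4 ^ 2 - a 0 *
    a 1 * a 2 ^ 2 * a 3 - 3 * a 0 * a 1 * a 2 ^ 2 * a 4 + a 0 * a 1 * a 2 * a 3 ^ 2 - 3 * a 0 *
    a 1 * a 2 * a 4 ^ 2 + 3 * a 0 * a 1 * a 3 ^ 2 * a 4 + 3 * a 0 * a 1 * a 3 * a 4 ^ 2 + a 0 *
    a 2 ^ 2 * a 3 * a 4 - a 0 * a 2 ^ 2 * a 4 ^ 2 + 3 * a 0 * a 2 * a 3 ^ 2 * a 4 + 3 * a 0 * a
    2 * a 3 * a 4 ^ 2 + 2 * a 0 * a 3 ^ 3 * a 4 + 5 * a 0 * a 3 ^ 2 * a 4 ^ 2 + 4 * a 0 * a 3 *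
    a 4 ^ 3 + a 0 * a 4 ^ 4 - a 1 ^ 3 * a 2 ^ 2 - 2 * a 1 ^ 3 * a 2 * a 4 - a 1 ^ 3 * a 4 ^ 2 -
    a 1 ^ 2 * a 2 ^ 3 - 2 * a 1 ^ 2 * a 2 ^ 2 * a 3 - 4 * a 1 ^ 2 * a 2 ^ 2 * a 4 - 3 * a 1 ^ 2
    * a 2 * a 3 * a 4 - 5 * a 1 ^ 2 * a 2 * a 4 ^ 2 - a 1 ^ 2 * a 3 * a 4 ^ 2 - 2 * a 1 ^ 2 * a
    4 ^ 3 - 2 * a 1 * a 2 ^ 3 * a 4 - 3 * a 1 * a 2 ^ 2 * a 3 * a 4 - 5 * a 1 * a 2 ^ 2 * a 4 ^
    2 - a 1 * a 2 * a 3 ^ 2 * a 4 - 3 * a 1 * a 2 * a 3 * a 4 ^ 2 - 4 * a 1 * a 2 * a 4 ^ 3 + a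
    1 * a 3 ^ 2 * a 4 ^ 2 - a 1 * a 4 ^ 4 - a 2 ^ 3 * a 4 ^ 2 - a 2 ^ 2 * a 3 * a 4 ^ 2 - 2 * a
    2 ^ 2 * a 4 ^ 3 + a 2 * a 3 ^ 2 * a 4 ^ 2 - a 2 * a 4 ^ 4 + a 3 ^ 3 * a 4 ^ 2 + 2 * a 3 ^ 2
    * a 4 ^ 3 + a 3 * a 4 ^ 4

theorem disc_key {R : Type} [CommRing R] (a : Fin 5 → R) :
    432 * (36 * ∏ i, residues a i - quint a ^ 2) =
      disc a * (4 * ∑ i, residues a i ^ 4 - (∑ i, residues a i ^ 2) ^ 2) := by
  simp only [disc, quint, residues, Fin.sum_univ_succ, Fin.sum_univ_zero, Fin.prod_univ_succ,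
    Fin.prod_univ_zero]
  simp
  ring

/-- the product of the ten exponents is a square if the discriminant vanishes -/
theorem isSquare_of_disc {K : Type} [Field K] (h2 : (2 : K) ≠ 0) (h3 : (3 : K) ≠ 0)
    {a : Fin 5 → K} (h : disc a = 0) : IsSquare (∏ i, residues a i) := by
  have h1 := disc_key a
  rw [h, zero_mul] at h1
  have h432 : (432 : K) ≠ 0 := by
    have e : (432 : K) = 2 ^ 4 * 3 ^ 3 := by norm_num
    rw [e]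
    exact mul_ne_zero (pow_ne_zero _ h2) (pow_ne_zero _ h3)
  have h6 : (6 : K) ≠ 0 := by
    have e : (6 : K) = 2 * 3 := by norm_num
    rw [e]
    exact mul_ne_zero h2 h3
  have h4 := (mul_eq_zero.1 h1).resolve_left h432
  refine ⟨quint a / 6, ?_⟩
  field_simp
  linear_combination h4

/-- Modulo a prime which is three modulo four the discriminant is not zero or minus the product
of the ten exponents is not a square. -/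
theorem disc_ne_zero_or {r : ℕ} [Fact r.Prime] (hr : r % 4 = 3) (hr3 : r ≠ 3)
    {a : Fin 5 → ZMod r} (ha : ∀ i, residues a i ≠ 0) :
    disc a ≠ 0 ∨ ¬ IsSquare (-∏ i, residues a i) := by
  by_contra hcon
  push Not at hcon
  obtain ⟨h0, t, ht⟩ := hcon
  have hrp : r.Prime := Fact.out
  have hn : ∀ q : ℕ, q.Prime → r ≠ q → ((q : ℕ) : ZMod r) ≠ 0 := by
    intro q hq hne h
    rw [ZMod.natCast_eq_zero_iff] at h
    exact hne ((Nat.prime_dvd_prime_iff_eq hrp hq).1 h)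
  have h2 : (2 : ZMod r) ≠ 0 := by
    have := hn 2 Nat.prime_two (by omega)
    exact_mod_cast this
  have h3 : (3 : ZMod r) ≠ 0 := by
    have := hn 3 Nat.prime_three hr3
    exact_mod_cast this
  obtain ⟨s, hs⟩ := isSquare_of_disc h2 h3 h0
  have hP : ∏ i, residues a i ≠ 0 := Finset.prod_ne_zero_iff.2 fun i _ => ha i
  have hs0 : s ≠ 0 := by
    rintro rfl
    exact hP (by rw [hs, mul_zero])
  have h1 : IsSquare (-1 : ZMod r) := by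
    refine ⟨t / s, ?_⟩
    rw [hs] at ht
    field_simp
    linear_combination ht
  rw [ZMod.exists_sq_eq_neg_one_iff] at h1
  exact h1 hr

/-- the same for integers -/
theorem int_disc_ne_zero_or {r : ℕ} [Fact r.Prime] (hr : r % 4 = 3) (hr3 : r ≠ 3)
    {v : Fin 5 → ℤ} (hv : ∀ i, ((residues v i : ℤ) : ZMod r) ≠ 0) :
    ((disc v : ℤ) : ZMod r) ≠ 0 ∨ ¬ IsSquare ((-∏ i, residues v i : ℤ) : ZMod r) := by
  have e1 : ((disc v : ℤ) : ZMod r) = disc (fun j => ((v j : ℤ) : ZMod r)) := by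
    simp only [disc, residues_cast]
    push_cast
    rfl
  have e2 : ((-∏ i, residues v i : ℤ) : ZMod r) =
      -∏ i, residues (fun j => ((v j : ℤ) : ZMod r)) i := by
    push_cast
    simp only [residues_cast]
  rw [e1, e2]
  refine disc_ne_zero_or hr hr3 fun i => ?_
  rw [residues_cast]
  exact hv i

end Pool.Agent.Helper40.QC
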