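import Pool.Agent.Helper73.KT.Core

/-!
# Valuations of Gauss sums (helper40)
-/

set_option autoImplicit false

namespace Pool.Agent.Helper40.QC

open Finset Pool.Agent.Helper73.KT

section digits

theorem digit_rec {p : ℕ} (hp : 1 < p) (a : ℕ) :
    (Nat.digits p a).sum = a % p + (Nat.digits p (a / p)).sum := by
  rcases Nat.eq_zero_or_pos a with rfl | ha
  · simp
  · rw [Nat.digits_def' hp ha, List.sum_cons]

theorem digit_mul {p : ℕ} (hp : 1 < p) (b : ℕ) :
    (Nat.digits p (p * b)).sum = (Nat.digits p b).sum := by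
  rw [digit_rec hp, Nat.mul_mod_right, Nat.mul_div_cancel_left _ (by omega), zero_add]

theorem digit_succ {p : ℕ} (hp : 1 < p) {a : ℕ} (ha : ¬ p ∣ a + 1) :
    (Nat.digits p (a + 1)).sum = (Nat.digits p a).sum + 1 := by
  have h2 : (a + 1) / p = a / p := by rw [Nat.succ_div, if_neg ha, add_zero]
  have h1 : (a + 1) % p = a % p + 1 := by
    have h3 := Nat.div_add_mod (a + 1) p
    have h4 := Nat.div_add_mod a p
    rw [h2] at h3
    omega
  rw [digit_rec hp (a + 1), digit_rec hp a, h1, h2]
  ring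

theorem digit_top {p : ℕ} (hp : 1 < p) (f : ℕ) : (Nat.digits p (p ^ f - 1)).sum = f * (p - 1) := by
  induction f with
  | zero => simp
  | succ f ih =>
    have h0 : 1 ≤ p ^ f := Nat.one_le_pow _ _ (by omega)
    have h1 : p ^ (f + 1) - 1 = (p - 1) + p * (p ^ f - 1) := by
      obtain ⟨m, hm⟩ : ∃ m, p ^ f = m + 1 := ⟨p ^ f - 1, by omega⟩
      have h2 : p ^ (f + 1) = p * m + p := by rw [pow_succ, hm]; ring
      rw [h2, hm, Nat.add_sub_cancel]
      omega
    rw [h1, digit_rec hp, Nat.add_mul_mod_self_left, Nat.mod_eq_of_lt (by omega),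
      Nat.add_mul_div_left _ _ (by omega), Nat.div_eq_of_lt (by omega), zero_add, ih]
    ring

end digits

section char

variable {K L : Type*} [Field K] [Fintype K] [Field L]

/-- All additive characters are shifts of a primitive one. -/
theorem exists_shift {ψ : AddChar K L} (hψ : ψ.IsPrimitive) (ψ' : AddChar K L) :
    ∃ c : K, ψ' = ψ.mulShift c := by
  classical
  by_contra hcon
  push Not at hcon
  let F : Option K → (Multiplicative K →* L) := fun o =>
    o.elim ψ'.toMonoidHom (fun c => (ψ.mulShift c).toMonoidHom)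
  have hF : Function.Injective F := by
    intro a b hab
    cases a with
    | none =>
      cases b with
      | none => rfl
      | some b =>
        exfalso
        apply hcon b
        exact AddChar.toMonoidHomEquiv.injective hab
    | some a =>
      cases b with
      | none =>
        exfalso
        apply hcon a
        exact (AddChar.toMonoidHomEquiv.injective hab).symm
      | some b =>
        congr 1
        apply AddChar.to_mulShift_inj_of_isPrimitive hψ
        exact AddChar.toMonoidHomEquiv.injective hab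
  have hlin := (linearIndependent_monoidHom (Multiplicative K) L).comp F hF
  have hcard := hlin.fintype_card_le_finrank
  rw [Fintype.card_option, Module.finrank_fintype_fun_eq_card] at hcard
  rw [Fintype.card_multiplicative] at hcard
  omega

end char

section stick

variable {L κ K : Type} [Field L] [CharZero L] [Field κ] [Field K] [Fintype K] {p f : ℕ}
  [Fact p.Prime]

theorem sum_frob (hK : Fintype.card K = p ^ f) (hf : f ≠ 0) (χ : MulChar K L)
    {ψ : AddChar K L} (hψ : ψ.IsPrimitive) :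
    ∃ c : Kˣ, gaussSum (χ ^ p) ψ = χ⁻¹ c * gaussSum χ ψ := by
  have hpp : p.Prime := Fact.out
  haveI : CharP K p := by
    obtain ⟨r, hr⟩ := CharP.exists K
    have hrp := CharP.char_is_prime K r
    obtain ⟨n, -, hn⟩ := FiniteField.card K r
    have h1 : p ∣ r ^ (n : ℕ) := by rw [← hn, hK]; exact dvd_pow_self p hf
    have h2 := hpp.dvd_of_dvd_pow h1
    rw [(Nat.prime_dvd_prime_iff_eq hpp hrp).1 h2]
    exact hr
  let Fr : K ≃+* K := frobeniusEquiv K p
  obtain ⟨c, hc⟩ := exists_shift hψ (ψ.compAddMonoidHom (Fr.symm : K →+ K))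
  have hc0 : c ≠ 0 := by
    rintro rfl
    rw [AddChar.mulShift_zero] at hc
    have h1 : ψ = 1 := by
      ext x
      have h2 := DFunLike.congr_fun hc (Fr x)
      simpa using h2
    have h3 : (1 : K) = 0 := by
      apply AddChar.to_mulShift_inj_of_isPrimitive hψ
      rw [h1]
      ext x
      simp
    exact one_ne_zero h3
  refine ⟨Units.mk0 c hc0, ?_⟩
  rw [← gaussSum_mulShift_eq, Units.val_mk0, ← hc]
  unfold gaussSum
  refine Fintype.sum_equiv Fr.toEquiv _ _ fun x => ?_
  change (χ ^ p) x * ψ x = χ (Fr x) * ψ (Fr.symm (Fr x))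
  rw [RingEquiv.symm_apply_apply, MulChar.pow_apply' χ hpp.ne_zero]
  congr 1
  change χ x ^ p = χ (frobeniusEquiv K p x)
  rw [frobeniusEquiv_apply, frobenius_def, map_pow]

theorem sum_pow_shift (hq : 2 < Fintype.card K) {m : ℕ} (hm : m ≤ Fintype.card K - 2) :
    ∑ x : K, x ^ (Fintype.card K - 2 + m) = if m = 1 then -1 else 0 := by
  classical
  have hpos : ∀ j : ℕ, j ≠ 0 → ∀ x : K, x ^ (Fintype.card K - 1 + j) = x ^ j := by
    intro j hj x
    by_cases hx : x = 0
    · rw [hx, zero_pow hj, zero_pow (by omega)]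
    · rw [pow_add, FiniteField.pow_card_sub_one_eq_one x hx, one_mul]
  by_cases h0 : m = 0
  · rw [h0, if_neg (by omega), add_zero]
    exact FiniteField.sum_pow_lt_card_sub_one K _ (by omega)
  by_cases h1 : m = 1
  · rw [h1, if_pos rfl, show Fintype.card K - 2 + 1 = Fintype.card K - 1 by omega]
    have h2 : ∀ x : K, x ^ (Fintype.card K - 1) = 1 - if x = 0 then 1 else 0 := by
      intro x
      by_cases hx : x = 0
      · rw [hx, if_pos rfl, zero_pow (by omega), sub_self]
      · rw [if_neg hx, FiniteField.pow_card_sub_one_eq_one x hx, sub_zero]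
    rw [Finset.sum_congr rfl fun x _ => h2 x, Finset.sum_sub_distrib, Finset.sum_ite_eq',
      if_pos (Finset.mem_univ _), Finset.sum_const, Finset.card_univ, nsmul_one,
      FiniteField.cast_card_eq_zero, zero_sub]
  · rw [if_neg h1]
    have h2 : ∀ x : K, x ^ (Fintype.card K - 2 + m) = x ^ (m - 1) := by
      intro x
      rw [← hpos (m - 1) (by omega) x]
      congr 1
      omega
    rw [Finset.sum_congr rfl fun x _ => h2 x]
    exact FiniteField.sum_pow_lt_card_sub_one K _ (by omega)

theorem sum_beta (hq : 2 < Fintype.card K) {b : ℕ} (hb1 : 1 ≤ b) (hb : b ≤ Fintype.card K - 2) :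
    ∑ x : K, x ^ (Fintype.card K - 2) * (1 - x) ^ b = b := by
  have h1 : ∀ x : K, x ^ (Fintype.card K - 2) * (1 - x) ^ b =
      ∑ m ∈ range (b + 1), (-1) ^ m * (b.choose m : K) * x ^ (Fintype.card K - 2 + m) := by
    intro x
    rw [sub_eq_add_neg, add_comm, add_pow, Finset.mul_sum]
    refine Finset.sum_congr rfl fun m _ => ?_
    rw [one_pow, mul_one, neg_pow, pow_add]
    ring
  rw [Finset.sum_congr rfl fun x _ => h1 x, Finset.sum_comm]
  have h2 : ∀ m ∈ range (b + 1), ∑ x : K, (-1) ^ m * (b.choose m : K) *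
      x ^ (Fintype.card K - 2 + m) = if m = 1 then (b : K) else 0 := by
    intro m hm
    rw [← Finset.mul_sum, sum_pow_shift hq (by rw [Finset.mem_range] at hm; omega)]
    split_ifs with h
    · rw [h, Nat.choose_one_right]; ring
    · rw [mul_zero]
  rw [Finset.sum_congr rfl h2, Finset.sum_ite_eq', if_pos (Finset.mem_range.2 (by omega))]

variable (φ : integralClosure ℤ L →+* κ) (ι : K →+* κ) (τ : MulChar K L)

omit [CharZero L] in
theorem int_value (χ : MulChar K L) (x : K) : IsIntegral ℤ (χ x) := by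
  classical
  by_cases hx : x = 0
  · rw [hx, MulChar.map_zero]; exact isIntegral_zero
  · have h1 : IsIntegral ℤ (χ x ^ (Fintype.card K - 1)) := by
      rw [← map_pow, FiniteField.pow_card_sub_one_eq_one x hx, map_one]
      exact isIntegral_one
    exact h1.of_pow (Nat.sub_pos_of_lt Fintype.one_lt_card)

omit [CharZero L] in
theorem res_value (hτ : ∀ t : Kˣ, res φ (τ t) = ι t) {a : ℕ} (ha1 : 1 ≤ a)
    (ha : a ≤ Fintype.card K - 2) (x : K) :
    res φ ((τ⁻¹ ^ a) x) = ι (x ^ (Fintype.card K - 1 - a)) := by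
  by_cases hx : x = 0
  · rw [hx, MulChar.map_zero, zero_pow (by omega), map_zero]
    have := res_natCast φ 0
    simpa using this
  · have h1 : (τ⁻¹ ^ a) x = τ ((Units.mk0 x hx)⁻¹ : Kˣ) ^ a := by
      rw [MulChar.pow_apply' _ (by omega), MulChar.inv_apply', Units.val_inv_eq_inv_val,
        Units.val_mk0]
    rw [h1, res_pow φ (int_value τ _), hτ, ← map_pow]
    congr 1
    rw [Units.val_inv_eq_inv_val, Units.val_mk0, inv_pow]
    have h2 : x ^ (Fintype.card K - 1 - a) * x ^ a = 1 := by
      rw [← pow_add, Nat.sub_add_cancel (by omega), FiniteField.pow_card_sub_one_eq_one x hx]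
    exact (eq_inv_of_mul_eq_one_left h2).symm

omit [CharZero L] in
theorem res_jacobi (hτ : ∀ t : Kˣ, res φ (τ t) = ι t) (hq : 2 < Fintype.card K) {a : ℕ}
    (ha1 : 1 ≤ a) (ha : a ≤ Fintype.card K - 2) :
    IsIntegral ℤ (jacobiSum τ⁻¹ (τ⁻¹ ^ a)) ∧
      res φ (jacobiSum τ⁻¹ (τ⁻¹ ^ a)) = ι ((Fintype.card K - 1 - a : ℕ) : K) := by
  have hint : ∀ x ∈ (Finset.univ : Finset K), IsIntegral ℤ (τ⁻¹ x * (τ⁻¹ ^ a) (1 - x)) :=
    fun x _ => (int_value _ _).mul (int_value _ _)
  refine ⟨IsIntegral.sum _ hint, ?_⟩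
  unfold jacobiSum
  rw [res_sum φ _ _ hint, ← sum_beta hq (b := Fintype.card K - 1 - a) (by omega) (by omega),
    map_sum]
  refine Finset.sum_congr rfl fun x _ => ?_
  rw [res_mul φ (int_value _ _) (int_value _ _), res_value φ ι τ hτ ha1 ha, map_mul]
  congr 1
  have h1 := res_value φ ι τ hτ (le_refl 1) (by omega) x
  rw [pow_one] at h1
  rw [h1]
  congr 2

omit [CharZero L] in
theorem order_tau (hτ : ∀ t : Kˣ, res φ (τ t) = ι t) : orderOf τ⁻¹ = Fintype.card K - 1 := by
  classical
  apply Nat.dvd_antisymm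
  · apply orderOf_dvd_of_pow_eq_one
    have h1 := MulChar.pow_card_eq_one (τ⁻¹ : MulChar K L)
    rw [Fintype.card_units] at h1
    exact h1
  · obtain ⟨g, hg⟩ := IsCyclic.exists_generator (α := Kˣ)
    have hord : orderOf g = Fintype.card K - 1 := by
      rw [orderOf_eq_card_of_forall_mem_zpowers hg, Nat.card_eq_fintype_card, Fintype.card_units]
    rw [← hord]
    apply orderOf_dvd_of_pow_eq_one
    have h2 : (τ⁻¹ : MulChar K L) ^ orderOf (τ⁻¹ : MulChar K L) = 1 := pow_orderOf_eq_one _
    have h3 : τ ^ orderOf (τ⁻¹ : MulChar K L) = 1 := by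
      rw [inv_pow, inv_eq_one] at h2
      exact h2
    set n := orderOf (τ⁻¹ : MulChar K L) with hn
    have h4 : τ (g : K) ^ n = 1 := by
      rw [← MulChar.pow_apply_coe, h3, MulChar.one_apply_coe]
    have h5 : ι ((g : K) ^ n) = 1 := by
      rw [map_pow, ← hτ, ← res_pow φ (int_value τ _), h4]
      simpa using res_natCast φ 1
    have h6 : (g : K) ^ n = 1 := ι.injective (by rw [h5, map_one])
    ext
    rw [Units.val_pow_eq_pow_val, h6, Units.val_one]

variable {Γ : Type*} [LinearOrderedCommGroupWithZero Γ] (v : Valuation L Γ)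

omit [CharZero L] in
theorem val_one (hv2 : ∀ x : integralClosure ℤ L, v (x : L) = 1 ↔ φ x ≠ 0) {x : L}
    (hx : IsIntegral ℤ x) (h : res φ x ≠ 0) : v x = 1 := by
  rw [res_eq φ hx] at h
  exact (hv2 ⟨x, hx⟩).2 h

omit [CharZero L] in
theorem val_value (hv2 : ∀ x : integralClosure ℤ L, v (x : L) = 1 ↔ φ x ≠ 0) (χ : MulChar K L)
    (c : Kˣ) : v (χ c) = 1 := by
  apply val_one φ v hv2 (int_value χ _)
  intro h
  have h1 : χ (c : K) * χ ((c⁻¹ : Kˣ) : K) = 1 := by
    rw [← map_mul, Units.mul_inv, map_one]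
  have h2 := congrArg (res φ) h1
  rw [res_mul φ (int_value χ _) (int_value χ _), h, zero_mul] at h2
  have h3 : res φ (1 : L) = 1 := by simpa using res_natCast φ 1
  rw [h3] at h2
  exact zero_ne_one h2

/-- Stickelberger's theorem on the valuations of Gauss sums. -/
theorem stickelberger (hK : Fintype.card K = p ^ f) (hτ : ∀ t : Kˣ, res φ (τ t) = ι t)
    (hv2 : ∀ x : integralClosure ℤ L, v (x : L) = 1 ↔ φ x ≠ 0) (ψ : AddChar K L)
    (hψ : ψ.IsPrimitive) :
    ∃ w : Γ, w ^ (p - 1) = v (p : L) ∧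
      ∀ a < p ^ f - 1, v (gaussSum (τ⁻¹ ^ a) ψ) = w ^ (Nat.digits p a).sum := by
  classical
  have hpp : p.Prime := Fact.out
  have hp1 : 1 < p := hpp.one_lt
  have hf : f ≠ 0 := by
    rintro rfl
    rw [pow_zero] at hK
    have := Fintype.one_lt_card (α := K)
    omega
  haveI : CharP K p := by
    obtain ⟨r, hr⟩ := CharP.exists K
    have hrp := CharP.char_is_prime K r
    obtain ⟨n, -, hn⟩ := FiniteField.card K r
    have h1 : p ∣ r ^ (n : ℕ) := by rw [← hn, hK]; exact dvd_pow_self p hf
    have h2 := hpp.dvd_of_dvd_pow h1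
    rw [(Nat.prime_dvd_prime_iff_eq hpp hrp).1 h2]
    exact hr
  have hord := order_tau φ ι τ hτ
  have hψ1 : ψ ≠ 1 := by
    rintro rfl
    have h3 : (1 : K) = 0 := by
      apply AddChar.to_mulShift_inj_of_isPrimitive hψ
      ext x
      simp
    exact one_ne_zero h3
  have hv0 : v (gaussSum (τ⁻¹ ^ 0) ψ) = 1 := by
    rw [pow_zero, gaussSum_one_left hψ1, Valuation.map_neg, map_one]
  rcases Nat.lt_or_ge 2 (Fintype.card K) with hq | hq
  · -- the main case
    set w := v (gaussSum τ⁻¹ ψ) with hw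
    have hrec1 : ∀ a, 1 ≤ a → a + 1 ≤ Fintype.card K - 2 → ¬ p ∣ a + 1 →
        v (gaussSum (τ⁻¹ ^ (a + 1)) ψ) = w * v (gaussSum (τ⁻¹ ^ a) ψ) := by
      intro a ha1 ha hpa
      have h1 : τ⁻¹ * τ⁻¹ ^ a ≠ 1 := by
        rw [← pow_succ']
        intro h
        have h2 := orderOf_dvd_of_pow_eq_one h
        rw [hord] at h2
        have := Nat.le_of_dvd (Nat.succ_pos a) h2
        omega
      have h2 := jacobiSum_mul_nontrivial h1 ψ
      obtain ⟨h3, h4⟩ := res_jacobi φ ι τ hτ hq ha1 (by omega)
      have h5 : v (jacobiSum τ⁻¹ (τ⁻¹ ^ a)) = 1 := by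
        apply val_one φ v hv2 h3
        rw [h4]
        intro h6
        have h7 : ((Fintype.card K - 1 - a : ℕ) : K) = 0 := by
          apply ι.injective
          rw [h6, map_zero]
        rw [CharP.cast_eq_zero_iff K p] at h7
        apply hpa
        have h8 : p ∣ Fintype.card K := by rw [hK]; exact dvd_pow_self p hf
        have h9 : Fintype.card K = (Fintype.card K - 1 - a) + (a + 1) := by omega
        rw [h9] at h8
        exact (Nat.dvd_add_right h7).1 h8
      have h6 := congrArg v h2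
      rw [map_mul, map_mul, h5, mul_one, ← pow_succ'] at h6
      exact h6
    have hrec2 : ∀ b, v (gaussSum (τ⁻¹ ^ (p * b)) ψ) = v (gaussSum (τ⁻¹ ^ b) ψ) := by
      intro b
      obtain ⟨c, hc⟩ := sum_frob hK hf (τ⁻¹ ^ b) hψ
      rw [mul_comm, pow_mul, hc, map_mul, val_value φ v hv2, one_mul]
    have hmain : ∀ a < p ^ f - 1, v (gaussSum (τ⁻¹ ^ a) ψ) = w ^ (Nat.digits p a).sum := by
      intro a
      induction a using Nat.strong_induction_on with
      | _ a ih =>
        intro ha
        rw [← hK] at ha ih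
        rcases Nat.eq_zero_or_pos a with rfl | ha0
        · rw [hv0]; simp
        rcases Nat.eq_or_lt_of_le (Nat.succ_le_of_lt ha0) with h1 | h1
        · have h2 : a = 1 := h1.symm
          rw [h2, pow_one, digit_rec hp1, Nat.mod_eq_of_lt hp1, Nat.div_eq_of_lt hp1]
          simp [hw]
        by_cases hpa : p ∣ a
        · obtain ⟨b, rfl⟩ := hpa
          have hb0 : 0 < b := Nat.pos_of_mul_pos_left ha0
          have hb : b < p * b := by nlinarith
          rw [hrec2, digit_mul hp1]
          exact ih b hb (by omega)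
        · obtain ⟨a', rfl⟩ : ∃ a', a = a' + 1 := ⟨a - 1, by omega⟩
          rw [hrec1 a' (by omega) (by omega) hpa, ih a' (by omega) (by omega),
            digit_succ hp1 hpa, pow_succ']
    refine ⟨w, ?_, hmain⟩
    have hτ1 : (τ⁻¹ : MulChar K L) ≠ 1 := by
      intro h
      rw [h, orderOf_one] at hord
      omega
    have h1 := gaussSum_mul_gaussSum_pow_orderOf_sub_one hτ1 hψ
    have h2 := congrArg v h1
    have h3 : v ((τ⁻¹ : MulChar K L) (-1)) = 1 := by
      have := val_value φ v hv2 τ⁻¹ (-1)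
      simpa using this
    rw [map_mul, map_mul, h3, one_mul, hord, hK, ← hw] at h2
    have hle : 1 ≤ p ^ f - 1 := by rw [← hK]; omega
    rw [hmain _ (by omega), Nat.cast_pow, map_pow, ← pow_succ'] at h2
    have h4 : (Nat.digits p (p ^ f - 1 - 1)).sum + 1 = f * (p - 1) := by
      rw [← digit_top hp1 f, ← digit_succ hp1, Nat.sub_add_cancel hle]
      rw [Nat.sub_add_cancel hle]
      intro h5
      have h6 : p ∣ p ^ f := dvd_pow_self p hf
      have h7 : p ^ f = (p ^ f - 1) + 1 := by omega
      rw [h7] at h6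
      have h8 := (Nat.dvd_add_right h5).1 h6
      exact hp1.ne' (Nat.dvd_one.1 h8)
    rw [h4, mul_comm, pow_mul] at h2
    exact (pow_left_inj₀ zero_le' zero_le' hf).1 h2
  · -- the field with two elements
    have hcard : Fintype.card K = 2 := by
      have := Fintype.one_lt_card (α := K)
      omega
    have hp2 : p = 2 := by
      have h1 : p ∣ 2 := by rw [← hcard, hK]; exact dvd_pow_self p hf
      exact (Nat.prime_dvd_prime_iff_eq hpp Nat.prime_two).1 h1
    refine ⟨v (p : L), ?_, ?_⟩
    · rw [hp2]; simp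
    · intro a ha
      rw [← hK, hcard] at ha
      have ha0 : a = 0 := by omega
      rw [ha0, hv0]; simp

end stick

end Pool.Agent.Helper40.QC
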